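import Mathlib
import Pool.Agent.Helper66.RK.NonAm

/-!
# Project FR (MP_0f6f3f_an): groups of rank at least `r`

`RankGE G r`: there are commuting elements `a 0, ..., a (r-1)` of the topological group `G`, the powers of `a 0` tend to infinity, and for
`i ≥ 1` two elements `u i`, `w i` which commute with the `a j`, `j < i`, are contracted by conjugation with `(a i)⁻¹`, `a i`, and generate a
discrete nonamenable subgroup. `rankGE_of_GL`: this holds if there is a continuous proper homomorphism `GL(r, ℝ) → G` with kernel in `{1, -1}`.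
-/

set_option autoImplicit false
set_option linter.unusedSectionVars false

open Filter Topology Matrix

namespace Pool.Agent.Helper96.FR

open Pool.Agent.Helper90.RK (NonAm)

/-- Groups of rank at least `r`. -/
def RankGE (G : Type) [Group G] [TopologicalSpace G] (r : ℕ) : Prop :=
  ∃ a u w : Fin r → G, (∀ i j, a i * a j = a j * a i) ∧
    (∀ i : Fin r, (i : ℕ) = 0 → Tendsto (fun m : ℕ => a i ^ m) atTop (cocompact G)) ∧
    ∀ i : Fin r, (i : ℕ) ≠ 0 → (∀ j < i, a j * u i = u i * a j ∧ a j * w i = w i * a j) ∧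
      Tendsto (fun m : ℕ => (a i ^ m)⁻¹ * u i * a i ^ m) atTop (𝓝 1) ∧
      Tendsto (fun m : ℕ => a i ^ m * w i * (a i ^ m)⁻¹) atTop (𝓝 1) ∧
      DiscreteTopology (Subgroup.closure {u i, w i}) ∧ NonAm (Subgroup.closure {u i, w i})

section SL2

variable {R : Type} [CommRing R]

/-- upper unipotent -/
def uE (t : R) : SpecialLinearGroup (Fin 2) R := ⟨!![1, t; 0, 1], by simp⟩

/-- lower unipotent -/
def lE (t : R) : SpecialLinearGroup (Fin 2) R := ⟨!![1, 0; t, 1], by simp⟩

theorem uE_coe (t : R) : (uE t : Matrix (Fin 2) (Fin 2) R) = !![1, t; 0, 1] := rfl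

theorem lE_coe (t : R) : (lE t : Matrix (Fin 2) (Fin 2) R) = !![1, 0; t, 1] := rfl

end SL2

section Block

variable {r : ℕ} {ρ : Type} [Fintype ρ] [DecidableEq ρ] (e : Fin 2 ⊕ ρ ≃ Fin r)

/-- block matrices -/
def bl (A : Matrix (Fin 2) (Fin 2) ℝ) : Matrix (Fin r) (Fin r) ℝ := reindex e e (fromBlocks A 0 0 1)

theorem bl_mul (A B : Matrix (Fin 2) (Fin 2) ℝ) : bl e (A * B) = bl e A * bl e B := by
  unfold bl
  simp only [reindex_apply]
  rw [submatrix_mul_equiv, fromBlocks_multiply]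
  simp

theorem bl_one : bl e 1 = 1 := by
  unfold bl
  simp only [reindex_apply, fromBlocks_one, submatrix_one_equiv]

theorem bl_apply (A : Matrix (Fin 2) (Fin 2) ℝ) (x y : Fin 2 ⊕ ρ) :
    bl e A (e x) (e y) = fromBlocks A 0 0 (1 : Matrix ρ ρ ℝ) x y := by
  unfold bl
  simp [reindex_apply]

theorem bl_cont : Continuous (bl e) := by
  unfold bl
  simp only [reindex_apply]
  fun_prop

theorem bl_val_mul (A B : SpecialLinearGroup (Fin 2) ℝ) : bl e (A * B).1 = bl e A.1 * bl e B.1 :=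
  (congrArg (bl e) (Matrix.SpecialLinearGroup.coe_mul A B)).trans (bl_mul e A.1 B.1)

theorem bl_val_one : bl e (1 : SpecialLinearGroup (Fin 2) ℝ).1 = 1 :=
  (congrArg (bl e) Matrix.SpecialLinearGroup.coe_one).trans (bl_one e)

/-- the embedding of `SL(2, ℝ)` -/
def jb : SpecialLinearGroup (Fin 2) ℝ →* GL (Fin r) ℝ where
  toFun A := ⟨bl e A.1, bl e (A⁻¹).1,
    by rw [← bl_val_mul, mul_inv_cancel, bl_val_one],
    by rw [← bl_val_mul, inv_mul_cancel, bl_val_one]⟩
  map_one' := Units.ext (bl_val_one e)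
  map_mul' A B := Units.ext (bl_val_mul e A B)

theorem jb_coe (A : SpecialLinearGroup (Fin 2) ℝ) : ((jb e A : GL (Fin r) ℝ) : Matrix (Fin r) (Fin r) ℝ) = bl e A.1 := rfl

theorem jb_cont : Continuous (jb e) := by
  rw [Units.continuous_iff]
  constructor
  · exact (bl_cont e).comp continuous_subtype_val
  · have h : Continuous fun A : SpecialLinearGroup (Fin 2) ℝ => (A⁻¹ : SpecialLinearGroup (Fin 2) ℝ) :=
      continuous_inv
    exact (bl_cont e).comp (continuous_subtype_val.comp h)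

/-- diagonal matrices -/
def dgU : (Fin r → ℝˣ) →* GL (Fin r) ℝ where
  toFun d := ⟨diagonal fun i => (d i : ℝ), diagonal fun i => ((d i)⁻¹ : ℝˣ),
    by rw [diagonal_mul_diagonal]; simp, by rw [diagonal_mul_diagonal]; simp⟩
  map_one' := Units.ext (by simp)
  map_mul' d d' := Units.ext (by
    show (diagonal fun i => (((d * d') i : ℝˣ) : ℝ)) = (diagonal fun i => (d i : ℝ)) * diagonal fun i => (d' i : ℝ)
    rw [diagonal_mul_diagonal]
    simp)

theorem dgU_coe (d : Fin r → ℝˣ) : ((dgU d : GL (Fin r) ℝ) : Matrix (Fin r) (Fin r) ℝ) = diagonal fun i => (d i : ℝ) := rfl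

theorem dgU_comm (d d' : Fin r → ℝˣ) : dgU d * dgU d' = dgU d' * dgU d := by
  rw [← map_mul, mul_comm, map_mul]

/-- `D j(A) = j(A') D` when `diag(α, β) A = A' diag(α, β)` -/
theorem dgU_jb {d : Fin r → ℝˣ} {A B : SpecialLinearGroup (Fin 2) ℝ}
    (h : ∀ x y, (d (e (Sum.inl x)) : ℝ) * A.1 x y = B.1 x y * d (e (Sum.inl y))) :
    dgU d * jb e A = jb e B * dgU d := by
  apply Units.ext
  show (diagonal fun i => (d i : ℝ)) * bl e A.1 = bl e B.1 * (diagonal fun i => (d i : ℝ))
  ext x y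
  obtain ⟨x, rfl⟩ := e.surjective x
  obtain ⟨y, rfl⟩ := e.surjective y
  rw [diagonal_mul, mul_diagonal, bl_apply, bl_apply]
  rcases x with x | x <;> rcases y with y | y
  · exact h x y
  · simp
  · simp
  · simp only [fromBlocks_apply₂₂]
    by_cases hxy : x = y
    · subst hxy; simp
    · simp [one_apply_ne hxy]

theorem dgU_uE {d : Fin r → ℝˣ} {t s : ℝ} (h : (d (e (Sum.inl 0)) : ℝ) * t = s * d (e (Sum.inl 1))) :
    dgU d * jb e (uE t) = jb e (uE s) * dgU d := by
  refine dgU_jb e fun x y => ?_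
  show (d (e (Sum.inl x)) : ℝ) * (!![1, t; 0, 1] : Matrix (Fin 2) (Fin 2) ℝ) x y =
    (!![1, s; 0, 1] : Matrix (Fin 2) (Fin 2) ℝ) x y * d (e (Sum.inl y))
  fin_cases x <;> fin_cases y <;> simp [h]

theorem dgU_lE {d : Fin r → ℝˣ} {t s : ℝ} (h : (d (e (Sum.inl 1)) : ℝ) * t = s * d (e (Sum.inl 0))) :
    dgU d * jb e (lE t) = jb e (lE s) * dgU d := by
  refine dgU_jb e fun x y => ?_
  show (d (e (Sum.inl x)) : ℝ) * (!![1, 0; t, 1] : Matrix (Fin 2) (Fin 2) ℝ) x y =
    (!![1, 0; s, 1] : Matrix (Fin 2) (Fin 2) ℝ) x y * d (e (Sum.inl y))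
  fin_cases x <;> fin_cases y <;> simp [h]

theorem tendsto_uE {t : ℕ → ℝ} (ht : Tendsto t atTop (𝓝 0)) : Tendsto (fun m => jb e (uE (t m))) atTop (𝓝 1) := by
  have h1 : Continuous fun s : ℝ => uE s := by
    refine Continuous.subtype_mk ?_ _
    refine continuous_matrix fun x y => ?_
    fin_cases x <;> fin_cases y <;> simp <;> fun_prop
  have h2 : jb e (uE 0) = 1 := by
    have : uE (0 : ℝ) = 1 := Subtype.ext (by ext x y; fin_cases x <;> fin_cases y <;> simp [uE])
    rw [this, map_one]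
  rw [← h2]
  exact (((jb_cont e).comp h1).tendsto 0).comp ht

theorem tendsto_lE {t : ℕ → ℝ} (ht : Tendsto t atTop (𝓝 0)) : Tendsto (fun m => jb e (lE (t m))) atTop (𝓝 1) := by
  have h1 : Continuous fun s : ℝ => lE s := by
    refine Continuous.subtype_mk ?_ _
    refine continuous_matrix fun x y => ?_
    fin_cases x <;> fin_cases y <;> simp <;> fun_prop
  have h2 : jb e (lE 0) = 1 := by
    have : lE (0 : ℝ) = 1 := Subtype.ext (by ext x y; fin_cases x <;> fin_cases y <;> simp [lE])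
    rw [this, map_one]
  rw [← h2]
  exact (((jb_cont e).comp h1).tendsto 0).comp ht

end Block

end Pool.Agent.Helper96.FR
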