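import Pool.Agent.Helper96.FR.Rge2

/-!
# Project FR (MP_0f6f3f_an): `SL(r + 1, 𝕜)` and `PSL(r + 1, 𝕜)` have rank at least `r`
-/

set_option autoImplicit false
set_option linter.unusedSectionVars false

open Filter Topology Matrix

namespace Pool.Agent.Helper96.FR

section SL

variable {𝕜 : Type} [RCLike 𝕜] {r : ℕ}

/-- the reindexing -/
def eS (r : ℕ) : Fin r ⊕ Fin 1 ≃ Fin (r + 1) := finSumFinEquiv

/-- the block matrix `diag(A, c)` -/
noncomputable def bS (A : Matrix (Fin r) (Fin r) ℝ) (c : ℝ) : Matrix (Fin (r + 1)) (Fin (r + 1)) 𝕜 :=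
  reindex (eS r) (eS r) (fromBlocks (A.map (algebraMap ℝ 𝕜)) 0 0 (diagonal fun _ => algebraMap ℝ 𝕜 c))

theorem bS_mul (A B : Matrix (Fin r) (Fin r) ℝ) (c d : ℝ) :
    (bS (A * B) (c * d) : Matrix (Fin (r + 1)) (Fin (r + 1)) 𝕜) = bS A c * bS B d := by
  unfold bS
  simp only [reindex_apply]
  rw [submatrix_mul_equiv, fromBlocks_multiply, diagonal_mul_diagonal, Matrix.map_mul]
  simp

theorem bS_one : (bS (1 : Matrix (Fin r) (Fin r) ℝ) 1 : Matrix (Fin (r + 1)) (Fin (r + 1)) 𝕜) = 1 := by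
  unfold bS
  simp only [reindex_apply]
  rw [Matrix.map_one _ (map_zero _) (map_one _), map_one, diagonal_one, fromBlocks_one, submatrix_one_equiv]

theorem bS_inl (A : Matrix (Fin r) (Fin r) ℝ) (c : ℝ) (x y : Fin r) :
    (bS A c : Matrix (Fin (r + 1)) (Fin (r + 1)) 𝕜) (eS r (Sum.inl x)) (eS r (Sum.inl y)) = algebraMap ℝ 𝕜 (A x y) := by
  unfold bS
  simp [reindex_apply]

theorem bS_det (A : Matrix (Fin r) (Fin r) ℝ) (c : ℝ) :
    (bS A c : Matrix (Fin (r + 1)) (Fin (r + 1)) 𝕜).det = algebraMap ℝ 𝕜 (A.det * c) := by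
  unfold bS
  rw [det_reindex_self, det_fromBlocks_zero₁₂, det_diagonal]
  have : (A.map (algebraMap ℝ 𝕜)).det = algebraMap ℝ 𝕜 A.det := by
    rw [← RingHom.mapMatrix_apply, ← RingHom.map_det]
  rw [this, map_mul]
  simp

/-- the block embedding `g ↦ diag(g, 1 / det g)` -/
noncomputable def fS : GL (Fin r) ℝ →* SpecialLinearGroup (Fin (r + 1)) 𝕜 where
  toFun g := ⟨bS g.1 (g.1.det)⁻¹, by
    rw [bS_det, mul_inv_cancel₀ ((isUnit_iff_isUnit_det _).1 g.isUnit).ne_zero, map_one]⟩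
  map_one' := by
    apply Subtype.ext
    show bS (1 : Matrix (Fin r) (Fin r) ℝ) (det (1 : Matrix (Fin r) (Fin r) ℝ))⁻¹ = 1
    rw [det_one, inv_one, bS_one]
  map_mul' g h := by
    apply Subtype.ext
    show bS (g.1 * h.1) (det (g.1 * h.1))⁻¹ = bS g.1 (g.1.det)⁻¹ * bS h.1 (h.1.det)⁻¹
    rw [det_mul, mul_inv, bS_mul]

theorem fS_val (g : GL (Fin r) ℝ) : (fS g : SpecialLinearGroup (Fin (r + 1)) 𝕜).1 = bS g.1 (g.1.det)⁻¹ := rfl

theorem fS_cont : Continuous (fS : GL (Fin r) ℝ →* SpecialLinearGroup (Fin (r + 1)) 𝕜) := by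
  refine Continuous.subtype_mk ?_ _
  have h1 : Continuous fun g : GL (Fin r) ℝ => (g : Matrix (Fin r) (Fin r) ℝ) := Units.continuous_val
  have h2 : Continuous fun g : GL (Fin r) ℝ => ((g : Matrix (Fin r) (Fin r) ℝ).det)⁻¹ :=
    h1.matrix_det.inv₀ fun g => ((isUnit_iff_isUnit_det _).1 g.isUnit).ne_zero
  unfold bS
  simp only [reindex_apply]
  refine Continuous.matrix_submatrix ?_ _ _
  refine Continuous.matrix_fromBlocks ?_ continuous_const continuous_const ?_
  · exact h1.matrix_map (RCLike.continuous_ofReal)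
  · refine Continuous.matrix_diagonal ?_
    exact continuous_pi fun _ => RCLike.continuous_ofReal.comp h2

theorem fS_bdd {K : Set (SpecialLinearGroup (Fin (r + 1)) 𝕜)} (hK : IsCompact K) : ∃ M : ℝ,
    ∀ g : GL (Fin r) ℝ, fS g ∈ K → ∀ x y, |(g : Matrix (Fin r) (Fin r) ℝ) x y| ≤ M ∧
      |((g⁻¹ : GL (Fin r) ℝ) : Matrix (Fin r) (Fin r) ℝ) x y| ≤ M := by
  obtain ⟨M, hM⟩ := bdd_SL hK
  obtain ⟨M', hM'⟩ := bdd_SL hK.inv
  refine ⟨max M M', fun g hg x y => ⟨?_, ?_⟩⟩
  · have h1 := hM _ hg (eS r (Sum.inl x)) (eS r (Sum.inl y))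
    rw [fS_val, bS_inl, norm_algebraMap', Real.norm_eq_abs] at h1
    exact h1.trans (le_max_left _ _)
  · have h2 : (fS g⁻¹ : SpecialLinearGroup (Fin (r + 1)) 𝕜) ∈ K⁻¹ := by
      rw [map_inv]
      exact Set.inv_mem_inv.2 hg
    have h1 := hM' _ h2 (eS r (Sum.inl x)) (eS r (Sum.inl y))
    rw [fS_val, bS_inl, norm_algebraMap', Real.norm_eq_abs] at h1
    exact h1.trans (le_max_right _ _)

/-- `SL(r + 1, 𝕜)` has rank at least `r`. -/
theorem rankGE_SL : RankGE (SpecialLinearGroup (Fin (r + 1)) 𝕜) r := by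
  refine rankGE_of_GL fS fS_cont (tendsto_of_bdd fun K hK => fS_bdd hK) fun g hg => Or.inl ?_
  ext x y
  have h1 : (fS g : SpecialLinearGroup (Fin (r + 1)) 𝕜).1 (eS r (Sum.inl x)) (eS r (Sum.inl y)) =
      (1 : SpecialLinearGroup (Fin (r + 1)) 𝕜).1 (eS r (Sum.inl x)) (eS r (Sum.inl y)) := by rw [hg]
  rw [fS_val, bS_inl] at h1
  have h2 : (1 : SpecialLinearGroup (Fin (r + 1)) 𝕜).1 (eS r (Sum.inl x)) (eS r (Sum.inl y)) =
      algebraMap ℝ 𝕜 ((1 : Matrix (Fin r) (Fin r) ℝ) x y) := by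
    have : (1 : SpecialLinearGroup (Fin (r + 1)) 𝕜).1 = 1 := rfl
    rw [this, one_apply, one_apply]
    simp only [EmbeddingLike.apply_eq_iff_eq, Sum.inl.injEq]
    split_ifs <;> simp
  rw [h2] at h1
  exact (algebraMap ℝ 𝕜).injective h1

end SL

section Quot

/-- Quotients by compact normal subgroups. -/
theorem tendsto_quot {G : Type*} [Group G] [TopologicalSpace G] [IsTopologicalGroup G] (Z : Subgroup G) [Z.Normal]
    (hZ : IsCompact (Z : Set G)) : Tendsto ((↑) : G → G ⧸ Z) (cocompact G) (cocompact (G ⧸ Z)) := by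
  have hcl : IsClosedMap ((↑) : G → G ⧸ Z) := QuotientGroup.isClosedMap_coe hZ
  have hp : IsProperMap ((↑) : G → G ⧸ Z) := by
    rw [isProperMap_iff_isClosedMap_and_compact_fibers]
    refine ⟨QuotientGroup.continuous_mk, hcl, fun y => ?_⟩
    obtain ⟨g, rfl⟩ := QuotientGroup.mk_surjective y
    have e : ((↑) : G → G ⧸ Z) ⁻¹' {(g : G ⧸ Z)} = (fun x => g * x) '' (Z : Set G) := by
      ext x
      simp only [Set.mem_preimage, Set.mem_singleton_iff, Set.mem_image, SetLike.mem_coe]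
      constructor
      · intro h
        exact ⟨g⁻¹ * x, QuotientGroup.eq.1 h.symm, by group⟩
      · rintro ⟨z, hz, rfl⟩
        exact (QuotientGroup.eq.2 (by simpa using hz)).symm
    rw [e]
    exact hZ.image (continuous_const_mul g)
  rw [(hasBasis_cocompact).tendsto_right_iff]
  intro K hK
  exact (hp.isCompact_preimage hK).compl_mem_cocompact

end Quot

section PSL

variable {𝕜 : Type} [RCLike 𝕜] {r : ℕ}

theorem isCompact_center : IsCompact (Subgroup.center (SpecialLinearGroup (Fin (r + 1)) 𝕜) : Set (SpecialLinearGroup (Fin (r + 1)) 𝕜)) := by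
  have hc : IsClosed (Subgroup.center (SpecialLinearGroup (Fin (r + 1)) 𝕜) : Set (SpecialLinearGroup (Fin (r + 1)) 𝕜)) := by
    have e : (Subgroup.center (SpecialLinearGroup (Fin (r + 1)) 𝕜) : Set (SpecialLinearGroup (Fin (r + 1)) 𝕜)) =
        ⋂ h, {g | h * g = g * h} := by
      ext g
      simp only [SetLike.mem_coe, Subgroup.mem_center_iff, Set.mem_iInter, Set.mem_ofPred_eq]
    rw [e]
    exact isClosed_iInter fun h => isClosed_eq (continuous_const_mul h) (continuous_mul_const h)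
  refine isCompact_SL hc (M := 1) fun A hA x y => ?_
  obtain ⟨z, hz, hzA⟩ := Matrix.SpecialLinearGroup.mem_center_iff.1 hA
  rw [← hzA]
  have h1 : ‖z‖ = 1 := by
    have h2 := congrArg norm hz
    rw [norm_pow, norm_one, Fintype.card_fin] at h2
    exact (pow_eq_one_iff_of_nonneg (norm_nonneg z) (Nat.succ_ne_zero r)).1 h2
  rw [scalar_apply, diagonal_apply]
  split_ifs
  · exact h1.le
  · simp

/-- `PSL(r + 1, 𝕜)` has rank at least `r`. -/
theorem rankGE_PSL : RankGE (ProjectiveSpecialLinearGroup (Fin (r + 1)) 𝕜) r := by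
  have hT2 : T2Space (SpecialLinearGroup (Fin (r + 1)) 𝕜 ⧸ Subgroup.center (SpecialLinearGroup (Fin (r + 1)) 𝕜)) := by
    have : IsClosed (Subgroup.center (SpecialLinearGroup (Fin (r + 1)) 𝕜) : Set (SpecialLinearGroup (Fin (r + 1)) 𝕜)) :=
      isCompact_center.isClosed
    have h3 : T3Space (SpecialLinearGroup (Fin (r + 1)) 𝕜 ⧸ Subgroup.center (SpecialLinearGroup (Fin (r + 1)) 𝕜)) :=
      @QuotientGroup.instT3Space _ _ _ _ _ _ this
    infer_instance
  refine rankGE_of_GL (G := SpecialLinearGroup (Fin (r + 1)) 𝕜 ⧸ Subgroup.center (SpecialLinearGroup (Fin (r + 1)) 𝕜))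
    ((QuotientGroup.mk' _).comp fS) (QuotientGroup.continuous_mk.comp fS_cont)
    ((tendsto_quot _ isCompact_center).comp (tendsto_of_bdd fun K hK => fS_bdd hK)) fun g hg => ?_
  have h1 : (fS g : SpecialLinearGroup (Fin (r + 1)) 𝕜) ∈ Subgroup.center (SpecialLinearGroup (Fin (r + 1)) 𝕜) :=
    (QuotientGroup.eq_one_iff _).1 hg
  obtain ⟨z, hz, hzA⟩ := Matrix.SpecialLinearGroup.mem_center_iff.1 h1
  rw [fS_val] at hzA
  have h2 : ∀ x y : Fin r, algebraMap ℝ 𝕜 ((g : Matrix (Fin r) (Fin r) ℝ) x y) = if x = y then z else 0 := by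
    intro x y
    have h3 : (scalar (Fin (r + 1)) z : Matrix (Fin (r + 1)) (Fin (r + 1)) 𝕜) (eS r (Sum.inl x)) (eS r (Sum.inl y)) =
        (bS g.1 (g.1.det)⁻¹ : Matrix (Fin (r + 1)) (Fin (r + 1)) 𝕜) (eS r (Sum.inl x)) (eS r (Sum.inl y)) := by
      rw [hzA]
    rw [bS_inl, scalar_apply, diagonal_apply] at h3
    simp only [EmbeddingLike.apply_eq_iff_eq, Sum.inl.injEq] at h3
    exact h3.symm
  rcases Nat.eq_zero_or_pos r with hr | hr
  · subst hr
    left
    ext x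
    exact x.elim0
  · have h4 := h2 ⟨0, hr⟩ ⟨0, hr⟩
    rw [if_pos rfl] at h4
    set t : ℝ := (g : Matrix (Fin r) (Fin r) ℝ) ⟨0, hr⟩ ⟨0, hr⟩ with ht
    have h5 : |t| = 1 := by
      have h6 := congrArg norm hz
      rw [norm_pow, norm_one, Fintype.card_fin, ← h4, norm_algebraMap', Real.norm_eq_abs] at h6
      exact (pow_eq_one_iff_of_nonneg (abs_nonneg t) (Nat.succ_ne_zero r)).1 h6
    have h7 : (g : Matrix (Fin r) (Fin r) ℝ) = diagonal fun _ => t := by
      ext x y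
      rw [diagonal_apply]
      apply (algebraMap ℝ 𝕜).injective
      rw [h2]
      split_ifs
      · exact h4.symm
      · simp
    rcases eq_or_eq_neg_of_abs_eq h5 with h | h
    · left
      rw [h7, h, diagonal_one]
    · right
      rw [h7, h]
      ext x y
      rw [diagonal_apply, Matrix.neg_apply, one_apply]
      split_ifs <;> simp

end PSL

end Pool.Agent.Helper96.FR
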