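import Mathlib

/-!
# Project FR (MP_0f6f3f_an): the Mautner phenomenon

Let `σ` be a unitary representation of a topological group `C` on a Hilbert space (not assumed to be continuous), and
`contVec σ` the set of vectors with continuous orbit map: a closed invariant subspace. If `η ∈ contVec σ` is fixed by `a`
and `a⁻ᵐ u aᵐ → 1`, then `η` is fixed by `u`. `exists_fixed`: if `Re ⟪ζ, σ(a)ᵐ η₀⟫ ≥ c` for all `m`, `η₀` a continuous
vector, then the limit `η` of the ergodic means of `η₀` is continuous, fixed by `a`, by all `u` with `a⁻ᵐ u aᵐ → 1` or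
`aᵐ u a⁻ᵐ → 1` and by the group generated by them, and `Re ⟪ζ, η⟫ ≥ c`.
-/

set_option autoImplicit false
set_option linter.unusedSectionVars false

open Filter Topology

namespace Pool.Agent.Helper96.FR

variable {C : Type*} [Group C] [TopologicalSpace C] [IsTopologicalGroup C]
variable {H : Type*} [NormedAddCommGroup H] [InnerProductSpace ℂ H]

/-- The vectors with continuous orbit map. -/
def contVec (σ : C →* (H ≃ₗᵢ[ℂ] H)) : Submodule ℂ H where
  carrier := {η | Tendsto (fun g => σ g η) (𝓝 1) (𝓝 η)}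
  add_mem' := by
    intro η ξ h h'
    have e := Tendsto.add h h'
    refine e.congr fun g => ?_
    exact (map_add (σ g) _ _).symm
  zero_mem' := by
    refine tendsto_const_nhds.congr fun g => ?_
    exact (map_zero (σ g)).symm
  smul_mem' := by
    intro z η h
    have e := Tendsto.const_smul h z
    refine e.congr fun g => ?_
    exact (map_smul (σ g) _ _).symm

theorem mem_contVec {σ : C →* (H ≃ₗᵢ[ℂ] H)} {η : H} :
    η ∈ contVec σ ↔ Tendsto (fun g => σ g η) (𝓝 1) (𝓝 η) := Iff.rfl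

theorem isClosed_contVec (σ : C →* (H ≃ₗᵢ[ℂ] H)) : IsClosed (contVec σ : Set H) := by
  rw [← isSeqClosed_iff_isClosed]
  intro x p hx hxp
  change Tendsto (fun g => σ g p) (𝓝 1) (𝓝 p)
  rw [Metric.tendsto_nhds]
  intro ε hε
  rw [Metric.tendsto_atTop] at hxp
  obtain ⟨N, hN⟩ := hxp (ε / 3) (by positivity)
  have h1 := hN N le_rfl
  have h2 : ∀ᶠ g in 𝓝 (1 : C), dist (σ g (x N)) (x N) < ε / 3 :=
    (Metric.tendsto_nhds.1 (mem_contVec.1 (hx N))) (ε / 3) (by positivity)
  filter_upwards [h2] with g hg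
  have h3 : dist (σ g p) (σ g (x N)) = dist p (x N) := (σ g).dist_map _ _
  calc dist (σ g p) p ≤ dist (σ g p) (σ g (x N)) + dist (σ g (x N)) (x N) + dist (x N) p :=
        dist_triangle4 _ _ _ _
    _ < ε / 3 + ε / 3 + ε / 3 := by
        rw [h3, dist_comm p]
        linarith
    _ = ε := by ring

theorem map_mem_contVec {σ : C →* (H ≃ₗᵢ[ℂ] H)} {η : H} (h : η ∈ contVec σ) (g : C) :
    σ g η ∈ contVec σ := by
  change Tendsto (fun k => σ k (σ g η)) (𝓝 1) (𝓝 (σ g η))
  have h1 : Tendsto (fun k : C => g⁻¹ * k * g) (𝓝 1) (𝓝 1) := by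
    have h2 : Tendsto (fun k : C => g⁻¹ * k * g) (𝓝 1) (𝓝 (g⁻¹ * 1 * g)) :=
      (Continuous.mul (continuous_const.mul continuous_id) continuous_const).tendsto 1
    simpa using h2
  have h3 := (mem_contVec.1 h).comp h1
  have h4 : Tendsto (fun k => σ g (σ (g⁻¹ * k * g) η)) (𝓝 1) (𝓝 (σ g η)) :=
    ((σ g).continuous.tendsto _).comp h3
  refine h4.congr fun k => ?_
  change (σ g * σ (g⁻¹ * k * g)) η = (σ k * σ g) η
  rw [← map_mul, ← map_mul]
  congr 2
  group

/-- **Mautner phenomenon.** -/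
theorem mautner {σ : C →* (H ≃ₗᵢ[ℂ] H)} {η : H} (hη : η ∈ contVec σ) {a u : C}
    (hau : Tendsto (fun m : ℕ => (a ^ m)⁻¹ * u * a ^ m) atTop (𝓝 1)) (ha : σ a η = η) :
    σ u η = η := by
  have hpow : ∀ m : ℕ, σ (a ^ m) η = η := by
    intro m
    induction m with
    | zero => rw [pow_zero, map_one]; rfl
    | succ m ih =>
      rw [pow_succ, map_mul]
      change σ (a ^ m) (σ a η) = η
      rw [ha, ih]
  have h1 : Tendsto (fun m : ℕ => σ ((a ^ m)⁻¹ * u * a ^ m) η) atTop (𝓝 η) := (mem_contVec.1 hη).comp hau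
  have h2 : ∀ m : ℕ, dist (σ ((a ^ m)⁻¹ * u * a ^ m) η) η = dist (σ u η) η := by
    intro m
    have e : σ ((a ^ m)⁻¹ * u * a ^ m) η = σ (a ^ m)⁻¹ (σ u η) := by
      rw [map_mul, map_mul]
      change σ (a ^ m)⁻¹ (σ u (σ (a ^ m) η)) = _
      rw [hpow]
    have e2 : σ (a ^ m)⁻¹ η = η := by
      have h3 : σ (a ^ m)⁻¹ (σ (a ^ m) η) = η := by
        change (σ (a ^ m)⁻¹ * σ (a ^ m)) η = _
        rw [← map_mul, inv_mul_cancel, map_one]
        rfl
      rwa [hpow m] at h3
    calc dist (σ ((a ^ m)⁻¹ * u * a ^ m) η) η = dist (σ (a ^ m)⁻¹ (σ u η)) (σ (a ^ m)⁻¹ η) := by rw [e, e2]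
      _ = dist (σ u η) η := (σ (a ^ m)⁻¹).dist_map _ _
  have h3 : Tendsto (fun m : ℕ => dist (σ ((a ^ m)⁻¹ * u * a ^ m) η) η) atTop (𝓝 (dist η η)) :=
    h1.dist tendsto_const_nhds
  rw [dist_self] at h3
  have h4 : Tendsto (fun _ : ℕ => dist (σ u η) η) atTop (𝓝 0) := h3.congr h2
  have h5 := tendsto_nhds_unique tendsto_const_nhds h4
  exact dist_eq_zero.1 h5

/-- The stabiliser of a vector. -/
def fixG (σ : C →* (H ≃ₗᵢ[ℂ] H)) (η : H) : Subgroup C where
  carrier := {g | σ g η = η}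
  mul_mem' := by
    intro g h hg hh
    change σ (g * h) η = η
    rw [map_mul]
    change σ g (σ h η) = η
    have h1 : σ g η = η := hg
    have h2 : σ h η = η := hh
    rw [h2, h1]
  one_mem' := by
    change σ 1 η = η
    rw [map_one]
    rfl
  inv_mem' := by
    intro g hg
    change σ g⁻¹ η = η
    have h3 : σ g⁻¹ (σ g η) = η := by
      change (σ g⁻¹ * σ g) η = _
      rw [← map_mul, inv_mul_cancel, map_one]
      rfl
    have h4 : σ g η = η := hg
    rwa [h4] at h3

theorem mem_fixG {σ : C →* (H ≃ₗᵢ[ℂ] H)} {η : H} {g : C} : g ∈ fixG σ η ↔ σ g η = η := Iff.rfl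

/-- A continuous vector fixed by `a` is fixed by the group generated by the two horospherical groups of `a`. -/
theorem mautner_closure {σ : C →* (H ≃ₗᵢ[ℂ] H)} {η : H} (hη : η ∈ contVec σ) {a : C} (ha : σ a η = η)
    {S : Set C} (hS : ∀ u ∈ S, Tendsto (fun m : ℕ => (a ^ m)⁻¹ * u * a ^ m) atTop (𝓝 1) ∨
      Tendsto (fun m : ℕ => a ^ m * u * (a ^ m)⁻¹) atTop (𝓝 1)) :
    ∀ g ∈ Subgroup.closure S, σ g η = η := by
  have h1 : Subgroup.closure S ≤ fixG σ η := by
    rw [Subgroup.closure_le]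
    intro u hu
    rcases hS u hu with h | h
    · exact mautner hη h ha
    · have ha' : σ a⁻¹ η = η := (fixG σ η).inv_mem (mem_fixG.2 ha)
      refine mautner (a := a⁻¹) hη ?_ ha'
      refine h.congr fun m => ?_
      rw [inv_pow, inv_inv]
  exact fun g hg => h1 hg

end Pool.Agent.Helper96.FR
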