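import Pool.Agent.Helper96.FR.Lat2

/-!
# Project FR (MP_0f6f3f_an): lattices and the cocycle over `G / Γ`

`Lattice Γ`: `Γ` is discrete and `G / Γ` carries a nonzero finite `G`-invariant Borel measure. `exists_cocycle`: the probability space
`X = G / Γ`, the cocycle `a : G × X → Γ`, and its properties.
-/

set_option autoImplicit false
set_option linter.unusedSectionVars false

open Filter Topology MeasureTheory
open scoped Pointwise ENNReal

namespace Pool.Agent.Helper96.FR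

/-- Lattices: discrete subgroups with a nonzero finite invariant Borel measure on the quotient. -/
def Lattice {G : Type*} [Group G] [TopologicalSpace G] (Γ : Subgroup G) : Prop :=
  DiscreteTopology Γ ∧ ∃ ν : @Measure (G ⧸ Γ) (borel (G ⧸ Γ)), ν Set.univ ≠ 0 ∧ ν Set.univ ≠ ∞ ∧
    ∀ (g : G) (s : Set (G ⧸ Γ)), MeasurableSet[borel (G ⧸ Γ)] s → ν ((fun x => g • x) ⁻¹' s) = ν s

variable {G : Type*} [Group G] [TopologicalSpace G] [IsTopologicalGroup G]

theorem exists_nhd (Γ : Subgroup G) [DiscreteTopology Γ] : ∃ V : Set G, IsOpen V ∧ (1 : G) ∈ V ∧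
    ∀ v ∈ V, ∀ v' ∈ V, v⁻¹ * v' ∈ Γ → v = v' := by
  obtain ⟨U, hU, hU1, hUΓ⟩ : ∃ U : Set G, IsOpen U ∧ (1 : G) ∈ U ∧ ∀ l : Γ, (l : G) ∈ U → l = 1 := by
    have h1 : IsOpen ({1} : Set Γ) := isOpen_discrete _
    obtain ⟨U, hU, hU2⟩ := isOpen_induced_iff.1 h1
    refine ⟨U, hU, ?_, fun l hl => ?_⟩
    · have : (1 : Γ) ∈ ((↑) : Γ → G) ⁻¹' U := by
        rw [hU2]
        rfl
      exact this
    · have : l ∈ ((↑) : Γ → G) ⁻¹' U := hl
      rw [hU2] at this
      exact this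
  have hc : Continuous fun p : G × G => p.1⁻¹ * p.2 := by fun_prop
  have hn : (fun p : G × G => p.1⁻¹ * p.2) ⁻¹' U ∈ 𝓝 ((1 : G), (1 : G)) :=
    hc.continuousAt (by
      show U ∈ 𝓝 ((1 : G)⁻¹ * 1)
      rw [inv_one, one_mul]
      exact hU.mem_nhds hU1)
  obtain ⟨V1, hV1, V2, hV2, hsub⟩ := mem_nhds_prod_iff.1 hn
  obtain ⟨V, hVs, hVo, hV1'⟩ := mem_nhds_iff.1 (inter_mem hV1 hV2)
  refine ⟨V, hVo, hV1', fun v hv v' hv' hvv => ?_⟩
  have h1 : v⁻¹ * v' ∈ U := hsub (Set.mk_mem_prod (hVs hv).1 (hVs hv').2)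
  have h2 := congrArg Subtype.val (hUΓ ⟨v⁻¹ * v', hvv⟩ h1)
  have h3 : v⁻¹ * v' = 1 := h2
  exact (inv_mul_eq_one.1 h3)

/-- Sets with Borel preimage in `G` are Borel in `G / Γ`. -/
theorem measurableSet_quot [SecondCountableTopology G] (Γ : Subgroup G) [DiscreteTopology Γ] {A : Set (G ⧸ Γ)}
    (hA : MeasurableSet[borel G] ((↑) ⁻¹' A : Set G)) : MeasurableSet[borel (G ⧸ Γ)] A := by
  obtain ⟨V, hV, hV1, hVinj⟩ := exists_nhd Γ
  obtain ⟨s, hs, hs2⟩ := TopologicalSpace.countable_cover_nhds (f := fun g : G => g • V) (fun g => by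
    have h1 : IsOpen (g • V) := hV.smul g
    refine h1.mem_nhds ?_
    exact ⟨1, hV1, by simp⟩)
  let mG : MeasurableSpace G := borel G
  have bG : BorelSpace G := ⟨rfl⟩
  let mQ : MeasurableSpace (G ⧸ Γ) := borel (G ⧸ Γ)
  have bQ : @BorelSpace (G ⧸ Γ) _ mQ := @BorelSpace.mk _ _ mQ rfl
  have hemb : ∀ g : G, @MeasurableEmbedding (g • V : Set G) (G ⧸ Γ) _ mQ (fun x => ((x : G) : G ⧸ Γ)) := by
    intro g
    have hopen : IsOpen (g • V) := hV.smul g
    have h1 : Topology.IsOpenEmbedding (fun x : (g • V : Set G) => ((x : G) : G ⧸ Γ)) := by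
      refine Topology.IsOpenEmbedding.of_continuous_injective_isOpenMap ?_ ?_ ?_
      · exact QuotientGroup.continuous_mk.comp continuous_subtype_val
      · rintro ⟨x, v, hv, rfl⟩ ⟨y, v', hv', rfl⟩ hxy
        have h2 : (g • v)⁻¹ * (g • v') ∈ Γ := QuotientGroup.eq.1 hxy
        have h3 : v⁻¹ * v' ∈ Γ := by
          have : (g • v)⁻¹ * (g • v') = v⁻¹ * v' := by
            rw [smul_eq_mul, smul_eq_mul]
            group
          rwa [this] at h2
        have h4 := hVinj v hv v' hv' h3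
        subst h4
        rfl
      · exact QuotientGroup.isOpenMap_coe.comp hopen.isOpenMap_subtype_val
    exact h1.measurableEmbedding
  have e : A = ⋃ g ∈ s, (fun x : (g • V : Set G) => ((x : G) : G ⧸ Γ)) '' (Subtype.val ⁻¹' ((↑) ⁻¹' A : Set G)) := by
    ext x
    simp only [Set.mem_iUnion, Set.mem_image, Set.mem_preimage, Subtype.exists, exists_prop]
    constructor
    · intro hx
      obtain ⟨y, rfl⟩ := QuotientGroup.mk_surjective x
      have : y ∈ (⋃ x ∈ s, x • V) := by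
        rw [hs2]
        trivial
      rw [Set.mem_iUnion₂] at this
      obtain ⟨g, hg, hy⟩ := this
      exact ⟨g, hg, y, hy, hx, rfl⟩
    · rintro ⟨g, hg, y, hy, hy2, rfl⟩
      exact hy2
  rw [e]
  refine @MeasurableSet.biUnion _ _ mQ _ _ hs fun g _ => ?_
  exact (hemb g).measurableSet_image' (measurable_subtype_coe hA)

namespace IsSFD

variable [MeasurableSpace G] {Γ : Subgroup G} {D : Set G} (h : IsSFD Γ D)

/-- the section `G / Γ → D` -/
noncomputable def sec (x : G ⧸ Γ) : G := h.rep x.out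

theorem sec_mk (g : G) : h.sec (g : G ⧸ Γ) = h.rep g := by
  unfold sec
  obtain ⟨l, hl⟩ := QuotientGroup.mk_out_eq_mul Γ g
  rw [hl, h.rep_mul]

theorem sec_mem (x : G ⧸ Γ) : h.sec x ∈ D := h.rep_mem _

theorem mk_sec (x : G ⧸ Γ) : ((h.sec x : G) : G ⧸ Γ) = x := by
  obtain ⟨g, rfl⟩ := QuotientGroup.mk_surjective x
  rw [h.sec_mk, QuotientGroup.eq, rep, mul_inv_rev, inv_inv, mul_assoc, inv_mul_cancel, mul_one]
  exact (h.r g).2

theorem sec_smul (g : G) (x : G ⧸ Γ) : h.sec (g • x) = h.rep (g * h.sec x) := by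
  conv_lhs => rw [← h.mk_sec x]
  exact h.sec_mk (g * h.sec x)

/-- the cocycle over `G / Γ` -/
noncomputable def cc (g : G) (x : G ⧸ Γ) : Γ := h.r (g * h.sec x)

theorem sec_mul_cc (g : G) (x : G ⧸ Γ) : h.sec (g • x) * (h.cc g x : G) = g * h.sec x := by
  rw [h.sec_smul]
  exact h.rep_mul_r _

theorem cc_mul (g k : G) (x : G ⧸ Γ) : h.cc (g * k) x = h.cc g (k • x) * h.cc k x := by
  unfold cc
  rw [mul_assoc, h.r_left, h.sec_smul]

end IsSFD

/-- The probability space `X = G / Γ`, the cocycle and its properties. -/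
theorem exists_cocycle {G : Type} [Group G] [TopologicalSpace G] [IsTopologicalGroup G] [LocallyCompactSpace G]
    [SecondCountableTopology G] [T2Space G] (Γ : Subgroup G) (hΓ : Lattice Γ) :
    ∃ (X : Type) (_ : MeasurableSpace X) (_ : MulAction G X) (ν : Measure X) (_ : IsProbabilityMeasure ν)
      (a : G → X → Γ), (∀ g : G, MeasurePreserving (fun x => g • x) ν ν) ∧
      (∀ (g : G) (s : Set Γ), MeasurableSet {x | a g x ∈ s}) ∧
      (∀ (g k : G) (x : X), a (g * k) x = a g (k • x) * a k x) ∧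
      (∀ l : Γ, Tendsto (fun g : G => ν {x | a g x = l}) (cocompact G) (𝓝 0)) ∧
      Tendsto (fun g : G => ν {x | a g x ≠ 1}) (𝓝 1) (𝓝 0) ∧
      ∀ F : Subgroup G, DiscreteTopology F → ∃ p : X → Γ → F, (∀ (l : Γ) (s : Set F), MeasurableSet {x | p x l ∈ s}) ∧
        ∀ (f : F) (x : X) (l : Γ), p ((f : G) • x) (a f x * l) = f * p x l := by
  have hd : DiscreteTopology Γ := hΓ.1
  have hcount : Countable Γ := countable_of_discrete Γ
  obtain ⟨ν₀, h0, hfin, hinv⟩ := hΓ.2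
  let mG : MeasurableSpace G := borel G
  have bG : BorelSpace G := ⟨rfl⟩
  let mQ : MeasurableSpace (G ⧸ Γ) := borel (G ⧸ Γ)
  have bQ : @BorelSpace (G ⧸ Γ) _ mQ := @BorelSpace.mk _ _ mQ rfl
  obtain ⟨D, hD⟩ := exists_isSFD Γ
  have hsec : ∀ B : Set G, MeasurableSet B → MeasurableSet[mQ] (hD.sec ⁻¹' B) := by
    intro B hB
    refine measurableSet_quot Γ ?_
    have e : ((↑) ⁻¹' (hD.sec ⁻¹' B) : Set G) = hD.rep ⁻¹' B := by
      ext g
      simp only [Set.mem_preimage, hD.sec_mk]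
    rw [e]
    exact hD.measurable_rep hB
  have hsecm : @Measurable _ _ mQ _ hD.sec := fun B hB => hsec B hB
  have hsm : ∀ g : G, @Measurable _ _ mQ mQ (fun x : G ⧸ Γ => g • x) := by
    intro g
    have hc : Continuous (fun x : G ⧸ Γ => g • x) := continuous_const_smul g
    exact hc.borel_measurable
  let ν : @Measure (G ⧸ Γ) mQ := (ν₀ Set.univ)⁻¹ • ν₀
  have hp : @IsProbabilityMeasure _ mQ ν := by
    refine @IsProbabilityMeasure.mk _ mQ _ ?_
    show (ν₀ Set.univ)⁻¹ * ν₀ Set.univ = 1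
    exact ENNReal.inv_mul_cancel h0 hfin
  have hmp : ∀ g : G, @MeasurePreserving _ _ mQ mQ (fun x : G ⧸ Γ => g • x) ν ν := by
    intro g
    refine @MeasurePreserving.mk _ _ mQ mQ _ _ _ (hsm g) ?_
    refine @Measure.ext _ mQ _ _ fun s hs => ?_
    rw [Measure.map_apply (hsm g) hs]
    show (ν₀ Set.univ)⁻¹ * ν₀ ((fun x : G ⧸ Γ => g • x) ⁻¹' s) = (ν₀ Set.univ)⁻¹ * ν₀ s
    rw [hinv g s hs]
  -- the image measure on `G`
  let m : Measure G := @Measure.map _ _ mQ _ hD.sec ν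
  have hm : ∀ B : Set G, MeasurableSet B → m B = ν (hD.sec ⁻¹' B) := fun B hB =>
    Measure.map_apply hsecm hB
  have hmfin : IsFiniteMeasure m := by
    refine ⟨?_⟩
    rw [hm _ MeasurableSet.univ]
    exact measure_lt_top ν _
  have hcompact : ∀ ε : ℝ≥0∞, ε ≠ 0 → ∃ K : Set G, K ⊆ D ∧ IsCompact K ∧ ν {x | hD.sec x ∉ K} < ε := by
    intro ε hε
    obtain ⟨K, hKD, hK, hKm⟩ := hD.meas.exists_isCompact_sdiff_lt (measure_ne_top m D) hε
    refine ⟨K, hKD, hK, ?_⟩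
    have hDK : MeasurableSet (D \ K) := MeasurableSet.diff hD.meas hK.measurableSet
    rw [hm _ hDK] at hKm
    refine lt_of_le_of_lt (measure_mono ?_) hKm
    intro x hx
    exact ⟨hD.sec_mem x, hx⟩
  have hshift : ∀ (g : G) (K : Set G), IsCompact K → ν {x | hD.sec (g • x) ∉ K} = ν {x | hD.sec x ∉ K} := by
    intro g K hK
    have h1 : @MeasurableSet _ mQ {x | hD.sec x ∉ K} := hsec Kᶜ hK.measurableSet.compl
    exact (hmp g).measure_preimage h1.nullMeasurableSet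
  refine ⟨G ⧸ Γ, mQ, inferInstance, ν, hp, fun g x => hD.cc g x, hmp, ?_, hD.cc_mul, ?_, ?_, ?_⟩
  · intro g s
    have e : {x : G ⧸ Γ | hD.cc g x ∈ s} = hD.sec ⁻¹' ((fun y => g * y) ⁻¹' {y | hD.r y ∈ s}) := rfl
    rw [e]
    exact hsec _ (measurable_const_mul g (hD.measurableSet_r_mem s))
  · intro l
    rw [ENNReal.tendsto_nhds_zero]
    intro ε hε
    have hε2 : ε / 2 ≠ 0 := (ENNReal.half_pos hε.ne').ne'
    obtain ⟨K, hKD, hK, hKm⟩ := hcompact (ε / 2) hε2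
    have hKc : IsCompact (K * ({(l : G)} : Set G) * K⁻¹) := (hK.mul isCompact_singleton).mul hK.inv
    filter_upwards [hKc.compl_mem_cocompact] with g hg
    have hsub : {x : G ⧸ Γ | hD.cc g x = l} ⊆ {x | hD.sec x ∉ K} ∪ {x | hD.sec (g • x) ∉ K} := by
      intro x hx
      by_contra hn
      rw [Set.mem_union, not_or] at hn
      have h1 : hD.sec x ∈ K := not_not.1 hn.1
      have h2 : hD.sec (g • x) ∈ K := not_not.1 hn.2
      have hx : hD.cc g x = l := hx
      have h3 := hD.sec_mul_cc g x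
      rw [hx] at h3
      apply hg
      refine ⟨g * hD.sec x, ⟨hD.sec (g • x), h2, (l : G), rfl, h3⟩, (hD.sec x)⁻¹, Set.inv_mem_inv.2 h1, ?_⟩
      show g * hD.sec x * (hD.sec x)⁻¹ = g
      rw [mul_inv_cancel_right]
    calc ν {x : G ⧸ Γ | hD.cc g x = l} ≤ ν {x | hD.sec x ∉ K} + ν {x | hD.sec (g • x) ∉ K} :=
          (measure_mono hsub).trans (measure_union_le _ _)
      _ = ν {x | hD.sec x ∉ K} + ν {x | hD.sec x ∉ K} := by rw [hshift g K hK]
      _ ≤ ε / 2 + ε / 2 := add_le_add hKm.le hKm.le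
      _ = ε := ENNReal.add_halves ε
  · rw [ENNReal.tendsto_nhds_zero]
    intro ε hε
    have hε2 : ε / 2 ≠ 0 := (ENNReal.half_pos hε.ne').ne'
    obtain ⟨K, hKD, hK, hKm⟩ := hcompact (ε / 2) hε2
    obtain ⟨W, hW, hW1⟩ := exists_compact_mem_nhds (1 : G)
    -- the finitely many elements of `Γ` in `K⁻¹ W K`
    have hcl : IsClosed (Γ : Set G) := Subgroup.isClosed_of_discrete
    have hfinite : ((Γ : Set G) ∩ (K⁻¹ * W * K)).Finite := by
      have hc : IsCompact ((Γ : Set G) ∩ (K⁻¹ * W * K)) :=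
        ((hK.inv.mul hW).mul hK).inter_left hcl
      have hdisc : IsDiscrete ((Γ : Set G) ∩ (K⁻¹ * W * K)) :=
        (show IsDiscrete (Γ : Set G) from ⟨hd⟩).mono Set.inter_subset_left
      exact hc.finite hdisc
    have hnear : ∀ l ∈ ((Γ : Set G) ∩ (K⁻¹ * W * K)) \ {1}, ∀ᶠ g in 𝓝 (1 : G), g ∉ K * ({l} : Set G) * K⁻¹ := by
      rintro l ⟨⟨hlΓ, -⟩, hl1⟩
      have hc : IsCompact (K * ({l} : Set G) * K⁻¹) := (hK.mul isCompact_singleton).mul hK.inv
      refine hc.isClosed.isOpen_compl.mem_nhds ?_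
      rintro ⟨x, ⟨k, hk, l', hl', rfl⟩, y, hy, hxy⟩
      have hl' : l' = l := hl'
      subst hl'
      have hxy : k * l' * y = 1 := hxy
      have h1 : y⁻¹ ∈ K := Set.mem_inv.1 hy
      have h2 : y⁻¹ = k * l' := (mul_eq_one_iff_eq_inv.1 hxy).symm
      have h3 : k = y⁻¹ * (l'⁻¹) := by rw [h2, mul_inv_cancel_right]
      have h4 := hD.uniq y⁻¹ 1 ⟨l', hlΓ⟩ (by
        rw [Subgroup.coe_one, inv_one, mul_one]
        exact hKD h1) (by
        show y⁻¹ * l'⁻¹ ∈ D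
        rw [← h3]
        exact hKD hk)
      exact hl1 (congrArg Subtype.val h4).symm
    have hall : ∀ᶠ g in 𝓝 (1 : G), ∀ l ∈ ((Γ : Set G) ∩ (K⁻¹ * W * K)) \ {1}, g ∉ K * ({l} : Set G) * K⁻¹ :=
      ((hfinite.subset Set.sdiff_subset).eventually_all).2 hnear
    filter_upwards [hall, hW1] with g hg hgW
    have hsub : {x : G ⧸ Γ | hD.cc g x ≠ 1} ⊆ {x | hD.sec x ∉ K} ∪ {x | hD.sec (g • x) ∉ K} := by
      intro x hx
      by_contra hn
      rw [Set.mem_union, not_or] at hn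
      have h1 : hD.sec x ∈ K := not_not.1 hn.1
      have h2 : hD.sec (g • x) ∈ K := not_not.1 hn.2
      have h3 := hD.sec_mul_cc g x
      apply hx
      by_contra hne
      have h4 : (hD.cc g x : G) = (hD.sec (g • x))⁻¹ * g * hD.sec x := by
        rw [mul_assoc, ← h3, inv_mul_cancel_left]
      refine hg (hD.cc g x : G) ⟨⟨(hD.cc g x).2, ?_⟩, fun h5 => hne (Subtype.ext h5)⟩ ?_
      · rw [h4]
        exact ⟨_, ⟨_, Set.inv_mem_inv.2 h2, g, hgW, rfl⟩, _, h1, rfl⟩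
      · refine ⟨g * hD.sec x, ⟨hD.sec (g • x), h2, _, rfl, h3⟩, (hD.sec x)⁻¹, Set.inv_mem_inv.2 h1, ?_⟩
        show g * hD.sec x * (hD.sec x)⁻¹ = g
        rw [mul_inv_cancel_right]
    calc ν {x : G ⧸ Γ | hD.cc g x ≠ 1} ≤ ν {x | hD.sec x ∉ K} + ν {x | hD.sec (g • x) ∉ K} :=
          (measure_mono hsub).trans (measure_union_le _ _)
      _ = ν {x | hD.sec x ∉ K} + ν {x | hD.sec x ∉ K} := by rw [hshift g K hK]
      _ ≤ ε / 2 + ε / 2 := add_le_add hKm.le hKm.le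
      _ = ε := ENNReal.add_halves ε
  · intro F hF
    obtain ⟨p, hp1, hp2⟩ := exists_equi F
    refine ⟨fun x l => p (hD.sec x * (l : G)), fun l s => ?_, fun f x l => ?_⟩
    · have e : {x : G ⧸ Γ | p (hD.sec x * (l : G)) ∈ s} = hD.sec ⁻¹' ((fun y => y * (l : G)) ⁻¹' (p ⁻¹' s)) := rfl
      rw [e]
      exact hsec _ (measurable_mul_const (l : G) (hp2 s))
    · show p (hD.sec ((f : G) • x) * ((hD.cc f x * l : Γ) : G)) = f * p (hD.sec x * (l : G))
      rw [← hp1, Subgroup.coe_mul, ← mul_assoc, hD.sec_mul_cc, mul_assoc]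

end Pool.Agent.Helper96.FR
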