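import Pool.Agent.Helper96.FR.Rge1

/-!
# Project FR (MP_0f6f3f_an): `SL(r + 1, 𝕜)` and `PSL(r + 1, 𝕜)` have rank at least `r`

`𝕜 = ℝ` or `ℂ`. Block matrices `diag(g, 1 / det g)`, `g ∈ GL(r, ℝ)`.
-/

set_option autoImplicit false
set_option linter.unusedSectionVars false

open Filter Topology Matrix

namespace Pool.Agent.Helper96.FR

section Proper

variable {r : ℕ}

theorem isCompact_mat {𝕜 : Type*} [RCLike 𝕜] {n m : Type*} (M : ℝ) :
    IsCompact {A : Matrix n m 𝕜 | ∀ x y, ‖A x y‖ ≤ M} := by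
  have h : IsCompact (Set.univ.pi fun _ : n => (Set.univ.pi fun _ : m => Metric.closedBall (0 : 𝕜) M)) :=
    isCompact_univ_pi fun _ => isCompact_univ_pi fun _ => isCompact_closedBall 0 M
  have e : (Set.univ.pi fun _ : n => (Set.univ.pi fun _ : m => Metric.closedBall (0 : 𝕜) M)) =
      {A : n → m → 𝕜 | ∀ x y, ‖A x y‖ ≤ M} := by
    ext A
    simp only [Set.mem_univ_pi, mem_closedBall_zero_iff, Set.mem_ofPred_eq]
  rw [e] at h
  exact h

theorem isCompact_GL (M : ℝ) : IsCompact {g : GL (Fin r) ℝ | ∀ x y,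
    |(g : Matrix (Fin r) (Fin r) ℝ) x y| ≤ M ∧ |((g⁻¹ : GL (Fin r) ℝ) : Matrix (Fin r) (Fin r) ℝ) x y| ≤ M} := by
  rw [(Units.isEmbedding_embedProduct (M := Matrix (Fin r) (Fin r) ℝ)).isInducing.isCompact_iff]
  have h1 : IsCompact (({A : Matrix (Fin r) (Fin r) ℝ | ∀ x y, ‖A x y‖ ≤ M}) ×ˢ
      (MulOpposite.op '' {A : Matrix (Fin r) (Fin r) ℝ | ∀ x y, ‖A x y‖ ≤ M})) :=
    (isCompact_mat M).prod ((isCompact_mat M).image MulOpposite.continuous_op)
  have h2 : IsClosed {p : Matrix (Fin r) (Fin r) ℝ × (Matrix (Fin r) (Fin r) ℝ)ᵐᵒᵖ |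
      p.1 * p.2.unop = 1 ∧ p.2.unop * p.1 = 1} := by
    refine IsClosed.inter ?_ ?_
    · exact isClosed_eq (continuous_fst.mul (MulOpposite.continuous_unop.comp continuous_snd)) continuous_const
    · exact isClosed_eq ((MulOpposite.continuous_unop.comp continuous_snd).mul continuous_fst) continuous_const
  convert h1.inter_right h2 using 1
  ext ⟨A, B⟩
  constructor
  · rintro ⟨g, hg, hgp⟩
    have e1 : (g : Matrix (Fin r) (Fin r) ℝ) = A := congrArg Prod.fst hgp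
    have e2 : MulOpposite.op ((g⁻¹ : GL (Fin r) ℝ) : Matrix (Fin r) (Fin r) ℝ) = B := congrArg Prod.snd hgp
    subst e1
    subst e2
    exact ⟨⟨fun x y => (hg x y).1, ⟨_, fun x y => (hg x y).2, rfl⟩⟩, ⟨g.mul_inv, g.inv_mul⟩⟩
  · rintro ⟨⟨h3, ⟨B', h4, rfl⟩⟩, h5, h6⟩
    exact ⟨⟨A, B', h5, h6⟩, fun x y => ⟨h3 x y, h4 x y⟩, rfl⟩

theorem tendsto_of_bdd {G : Type*} [TopologicalSpace G] {f : GL (Fin r) ℝ → G}
    (h : ∀ K : Set G, IsCompact K → ∃ M : ℝ, ∀ g, f g ∈ K → ∀ x y,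
      |(g : Matrix (Fin r) (Fin r) ℝ) x y| ≤ M ∧ |((g⁻¹ : GL (Fin r) ℝ) : Matrix (Fin r) (Fin r) ℝ) x y| ≤ M) :
    Tendsto f (cocompact _) (cocompact G) := by
  rw [(hasBasis_cocompact).tendsto_right_iff]
  intro K hK
  obtain ⟨M, hM⟩ := h K hK
  filter_upwards [(isCompact_GL M).compl_mem_cocompact] with g hg hgK
  exact hg (hM g hgK)

end Proper

section SL

variable {𝕜 : Type} [RCLike 𝕜] {n : ℕ}

theorem isClosedEmbedding_SL : IsClosedEmbedding (fun A : SpecialLinearGroup (Fin n) 𝕜 => (A.1 : Matrix (Fin n) (Fin n) 𝕜)) := by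
  have h : IsClosed {A : Matrix (Fin n) (Fin n) 𝕜 | A.det = 1} :=
    isClosed_eq (by fun_prop) continuous_const
  exact h.isClosedEmbedding_subtypeVal

instance instLCMat : LocallyCompactSpace (Matrix (Fin n) (Fin n) 𝕜) :=
  inferInstanceAs (LocallyCompactSpace (Fin n → Fin n → 𝕜))

instance instSCMat : SecondCountableTopology (Matrix (Fin n) (Fin n) 𝕜) :=
  inferInstanceAs (SecondCountableTopology (Fin n → Fin n → 𝕜))

instance instLCSL : LocallyCompactSpace (SpecialLinearGroup (Fin n) 𝕜) :=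
  isClosedEmbedding_SL.locallyCompactSpace

instance instSCSL : SecondCountableTopology (SpecialLinearGroup (Fin n) 𝕜) :=
  isClosedEmbedding_SL.isEmbedding.secondCountableTopology

instance instT2SL : T2Space (SpecialLinearGroup (Fin n) 𝕜) :=
  isClosedEmbedding_SL.isEmbedding.t2Space

theorem isCompact_SL {S : Set (SpecialLinearGroup (Fin n) 𝕜)} (hS : IsClosed S) {M : ℝ}
    (h : ∀ A ∈ S, ∀ x y, ‖A.1 x y‖ ≤ M) : IsCompact S := by
  have h1 := (isClosedEmbedding_SL (𝕜 := 𝕜) (n := n)).isCompact_preimage (isCompact_mat (n := Fin n) (m := Fin n) (𝕜 := 𝕜) M)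
  exact h1.of_isClosed_subset hS fun A hA => h A hA

theorem bdd_SL {K : Set (SpecialLinearGroup (Fin n) 𝕜)} (hK : IsCompact K) :
    ∃ M : ℝ, ∀ A ∈ K, ∀ x y, ‖A.1 x y‖ ≤ M := by
  have h1 : ∀ x y, ∃ M : ℝ, ∀ A ∈ K, ‖A.1 x y‖ ≤ M := by
    intro x y
    have hc : Continuous fun A : SpecialLinearGroup (Fin n) 𝕜 => ‖A.1 x y‖ := by
      have h2 : Continuous fun A : SpecialLinearGroup (Fin n) 𝕜 => (A.1 : Matrix (Fin n) (Fin n) 𝕜) :=
        continuous_subtype_val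
      exact (h2.matrix_elem x y).norm
    obtain ⟨M, hM⟩ := (hK.image hc).bddAbove
    exact ⟨M, fun g hg => hM ⟨g, hg, rfl⟩⟩
  choose M hM using h1
  refine ⟨∑ x, ∑ y, |M x y|, fun g hg x y => ?_⟩
  have h2 : |M x y| ≤ ∑ y, |M x y| :=
    Finset.single_le_sum (f := fun y => |M x y|) (fun _ _ => abs_nonneg _) (Finset.mem_univ y)
  have h3 : ∑ y, |M x y| ≤ ∑ x, ∑ y, |M x y| :=
    Finset.single_le_sum (f := fun x => ∑ y, |M x y|) (fun _ _ => Finset.sum_nonneg fun _ _ => abs_nonneg _)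
      (Finset.mem_univ x)
  exact (hM x y g hg).trans ((le_abs_self _).trans (h2.trans h3))

end SL

end Pool.Agent.Helper96.FR
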