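import Mathlib

/-!
# Project FR (MP_0f6f3f_an): strict fundamental domains of discrete subgroups

`IsSFD Γ D`: `D` is measurable and meets every coset `g Γ` in exactly one point: `g = rep g * r g`, `rep g ∈ D`, `r g ∈ Γ`.
Every discrete subgroup of a second countable topological group has one (`exists_isSFD`).
-/

set_option autoImplicit false

open Filter Topology MeasureTheory
open scoped Pointwise

namespace Pool.Agent.Helper96.FR

variable {G₁ : Type*} [Group G₁]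

/-- `D` is measurable and meets every coset `g Γ` in exactly one point. -/
structure IsSFD [MeasurableSpace G₁] (Γ : Subgroup G₁) (D : Set G₁) : Prop where
  meas : MeasurableSet D
  ex : ∀ g : G₁, ∃ l : Γ, g * (l : G₁)⁻¹ ∈ D
  uniq : ∀ (g : G₁) (l l' : Γ), g * (l : G₁)⁻¹ ∈ D → g * (l' : G₁)⁻¹ ∈ D → l = l'

namespace IsSFD

variable [MeasurableSpace G₁] {Γ : Subgroup G₁} {D : Set G₁} (h : IsSFD Γ D)

/-- The `Γ`-coordinate. -/
noncomputable def r (g : G₁) : Γ := (h.ex g).choose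

/-- The representative in `D`. -/
noncomputable def rep (g : G₁) : G₁ := g * (h.r g : G₁)⁻¹

theorem rep_mem (g : G₁) : h.rep g ∈ D := (h.ex g).choose_spec

theorem rep_mul_r (g : G₁) : h.rep g * (h.r g : G₁) = g := by
  unfold rep
  rw [inv_mul_cancel_right]

theorem r_eq {g : G₁} {l : Γ} (hl : g * (l : G₁)⁻¹ ∈ D) : h.r g = l :=
  h.uniq g _ _ (h.rep_mem g) hl

theorem r_eq_iff {g : G₁} {l : Γ} : h.r g = l ↔ g * (l : G₁)⁻¹ ∈ D :=
  ⟨fun e => e ▸ h.rep_mem g, h.r_eq⟩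

theorem r_mul (g : G₁) (l : Γ) : h.r (g * l) = h.r g * l := by
  refine h.r_eq ?_
  rw [Subgroup.coe_mul, mul_inv_rev, mul_assoc, mul_inv_cancel_left]
  exact h.rep_mem g

theorem rep_mul (g : G₁) (l : Γ) : h.rep (g * l) = h.rep g := by
  unfold rep
  rw [h.r_mul, Subgroup.coe_mul, mul_inv_rev, mul_assoc, mul_inv_cancel_left]

theorem r_of_mem {g : G₁} (hg : g ∈ D) : h.r g = 1 := by
  refine h.r_eq ?_
  rwa [Subgroup.coe_one, inv_one, mul_one]

theorem rep_of_mem {g : G₁} (hg : g ∈ D) : h.rep g = g := by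
  unfold rep
  rw [h.r_of_mem hg, Subgroup.coe_one, inv_one, mul_one]

theorem mem_iff {g : G₁} : g ∈ D ↔ h.r g = 1 := by
  refine ⟨h.r_of_mem, fun e => ?_⟩
  have := h.rep_mem g
  rwa [rep, e, Subgroup.coe_one, inv_one, mul_one] at this

theorem rep_left (g x : G₁) : h.rep (g * h.rep x) = h.rep (g * x) := by
  have e : g * x = g * h.rep x * (h.r x : G₁) := by rw [mul_assoc, h.rep_mul_r]
  rw [e, h.rep_mul]

/-- cocycle identity -/
theorem r_left (g x : G₁) : h.r (g * x) = h.r (g * h.rep x) * h.r x := by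
  have e : g * x = g * h.rep x * (h.r x : G₁) := by rw [mul_assoc, h.rep_mul_r]
  conv_lhs => rw [e, h.r_mul]

theorem measurableSet_r [MeasurableMul G₁] (l : Γ) : MeasurableSet {g | h.r g = l} := by
  have e : {g | h.r g = l} = (fun g => g * (l : G₁)⁻¹) ⁻¹' D := by
    ext g
    exact h.r_eq_iff
  rw [e]
  exact measurable_mul_const _ h.meas

end IsSFD

theorem countable_of_discrete [TopologicalSpace G₁] [SecondCountableTopology G₁] (Γ : Subgroup G₁)
    [DiscreteTopology Γ] : Countable Γ := by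
  have : SecondCountableTopology Γ := inferInstance
  exact TopologicalSpace.separableSpace_iff_countable.1 inferInstance

/-- Every discrete subgroup has a strict measurable fundamental domain. -/
theorem exists_isSFD [TopologicalSpace G₁] [IsTopologicalGroup G₁] [SecondCountableTopology G₁]
    [MeasurableSpace G₁] [BorelSpace G₁] (Γ : Subgroup G₁) [DiscreteTopology Γ] :
    ∃ D : Set G₁, IsSFD Γ D := by
  classical
  -- an open neighbourhood meeting `Γ` only in `1`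
  obtain ⟨U, hU, hU1, hUΓ⟩ : ∃ U : Set G₁, IsOpen U ∧ (1 : G₁) ∈ U ∧ ∀ l : Γ, (l : G₁) ∈ U → l = 1 := by
    have h1 : IsOpen ({1} : Set Γ) := isOpen_discrete _
    obtain ⟨U, hU, hU2⟩ := isOpen_induced_iff.1 h1
    refine ⟨U, hU, ?_, fun l hl => ?_⟩
    · have : (1 : Γ) ∈ ((↑) : Γ → G₁) ⁻¹' U := by
        rw [hU2]
        rfl
      exact this
    · have : l ∈ ((↑) : Γ → G₁) ⁻¹' U := hl
      rw [hU2] at this
      exact this
  obtain ⟨V, hV, hV1, hVU⟩ : ∃ V : Set G₁, IsOpen V ∧ (1 : G₁) ∈ V ∧ ∀ v ∈ V, ∀ v' ∈ V, v⁻¹ * v' ∈ U := by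
    have hc : Continuous fun p : G₁ × G₁ => p.1⁻¹ * p.2 := by fun_prop
    have hn : (fun p : G₁ × G₁ => p.1⁻¹ * p.2) ⁻¹' U ∈ 𝓝 ((1 : G₁), (1 : G₁)) :=
      hc.continuousAt (by
        show U ∈ 𝓝 ((1 : G₁)⁻¹ * 1)
        rw [inv_one, one_mul]
        exact hU.mem_nhds hU1)
    obtain ⟨V1, hV1, V2, hV2, hsub⟩ := mem_nhds_prod_iff.1 hn
    obtain ⟨V, hVs, hVo, hV1'⟩ := mem_nhds_iff.1 (inter_mem hV1 hV2)
    refine ⟨V, hVo, hV1', fun v hv v' hv' => ?_⟩
    exact hsub (Set.mk_mem_prod (hVs hv).1 (hVs hv').2)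
  -- countably many translates cover
  obtain ⟨s, hs, hs2⟩ := TopologicalSpace.countable_cover_nhds (f := fun g : G₁ => g • V) (fun g => by
    have h1 : IsOpen (g • V) := hV.smul g
    refine h1.mem_nhds ?_
    exact ⟨1, hV1, by simp⟩)
  have hsne : s.Nonempty := by
    by_contra hne
    rw [Set.not_nonempty_iff_eq_empty] at hne
    rw [hne] at hs2
    have : (1 : G₁) ∈ (⋃ x ∈ (∅ : Set G₁), x • V) := by
      rw [hs2]
      trivial
    simp at this
  obtain ⟨e, he⟩ := hs.exists_eq_range hsne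
  have hcov : ∀ x : G₁, ∃ n : ℕ, x ∈ e n • V := by
    intro x
    have : x ∈ (⋃ x ∈ s, x • V) := by
      rw [hs2]
      trivial
    rw [Set.mem_iUnion₂] at this
    obtain ⟨g, hg, hx⟩ := this
    rw [he] at hg
    obtain ⟨n, rfl⟩ := hg
    exact ⟨n, hx⟩
  have huniqV : ∀ (n : ℕ) (x : G₁) (l l' : Γ), x * (l : G₁)⁻¹ ∈ e n • V → x * (l' : G₁)⁻¹ ∈ e n • V → l = l' := by
    intro n x l l' h1 h2
    obtain ⟨v, hv, hv2⟩ := h1
    obtain ⟨v', hv', hv2'⟩ := h2
    have h3 := hVU v hv v' hv'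
    have hv2 : e n * v = x * (l : G₁)⁻¹ := hv2
    have hv2' : e n * v' = x * (l' : G₁)⁻¹ := hv2'
    have h4 : v⁻¹ * v' = (l : G₁) * (l' : G₁)⁻¹ := by
      have e1 : v = (e n)⁻¹ * (x * (l : G₁)⁻¹) := by rw [← hv2, inv_mul_cancel_left]
      have e2 : v' = (e n)⁻¹ * (x * (l' : G₁)⁻¹) := by rw [← hv2', inv_mul_cancel_left]
      rw [e1, e2]
      group
    rw [h4] at h3
    have h5 := hUΓ (l * l'⁻¹) (by
      rw [Subgroup.coe_mul, Subgroup.coe_inv]
      exact h3)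
    exact mul_inv_eq_one.1 h5
  -- saturations
  let W : ℕ → Set G₁ := fun n => ⋃ l : Γ, (fun x => x * (l : G₁)⁻¹) ⁻¹' (e n • V)
  have hWo : ∀ n, IsOpen (W n) := fun n => isOpen_iUnion fun l =>
    (hV.smul (e n)).preimage (continuous_mul_const _)
  have hW : ∀ n x, x ∈ W n ↔ ∃ l : Γ, x * (l : G₁)⁻¹ ∈ e n • V := by
    intro n x
    simp only [W, Set.mem_iUnion, Set.mem_preimage]
  have hWl : ∀ n x (l : Γ), x * (l : G₁)⁻¹ ∈ W n ↔ x ∈ W n := by
    intro n x l
    rw [hW, hW]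
    constructor
    · rintro ⟨m, hm⟩
      refine ⟨m * l, ?_⟩
      rw [Subgroup.coe_mul, mul_inv_rev, ← mul_assoc]
      exact hm
    · rintro ⟨m, hm⟩
      refine ⟨m * l⁻¹, ?_⟩
      rw [Subgroup.coe_mul, Subgroup.coe_inv, mul_inv_rev, inv_inv, ← mul_assoc, inv_mul_cancel_right]
      exact hm
  have hWex : ∀ x, ∃ n, x ∈ W n := by
    intro x
    obtain ⟨n, hn⟩ := hcov x
    refine ⟨n, (hW n x).2 ⟨1, ?_⟩⟩
    rwa [Subgroup.coe_one, inv_one, mul_one]
  let D : Set G₁ := ⋃ n, ((e n • V) \ ⋃ m : Fin n, W m)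
  have hD : ∀ x, x ∈ D ↔ ∃ n, x ∈ e n • V ∧ ∀ m < n, x ∉ W m := by
    intro x
    simp only [D, Set.mem_iUnion, Set.mem_sdiff, not_exists]
    constructor
    · rintro ⟨n, h1, h2⟩
      exact ⟨n, h1, fun m hm => h2 ⟨m, hm⟩⟩
    · rintro ⟨n, h1, h2⟩
      exact ⟨n, h1, fun m => h2 m m.2⟩
  refine ⟨D, ?_, ?_, ?_⟩
  · refine MeasurableSet.iUnion fun n => ?_
    refine (hV.smul (e n)).measurableSet.diff ?_
    exact MeasurableSet.iUnion fun m => (hWo m).measurableSet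
  · intro x
    have hx := hWex x
    obtain ⟨l, hl⟩ := (hW _ _).1 (Nat.find_spec hx)
    refine ⟨l, (hD _).2 ⟨Nat.find hx, hl, fun m hm => ?_⟩⟩
    rw [hWl]
    exact Nat.find_min hx hm
  · intro x l l' h1 h2
    obtain ⟨n, h3, h4⟩ := (hD _).1 h1
    obtain ⟨n', h3', h4'⟩ := (hD _).1 h2
    have hn : n = n' := by
      by_contra hne
      rcases lt_or_gt_of_ne hne with hlt | hlt
      · have := h4' n hlt
        rw [hWl] at this
        exact this ((hW _ _).2 ⟨l, h3⟩)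
      · have := h4 n' hlt
        rw [hWl] at this
        exact this ((hW _ _).2 ⟨l', h3'⟩)
    subst hn
    exact huniqV n x l l' h3 h3'

end Pool.Agent.Helper96.FR
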