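import Pool.Agent.Helper96.FR.Lat0

/-!
# Project FR (MP_0f6f3f_an): measure theory of the strict fundamental domain

`G₁` second countable locally compact group with a left and right invariant Haar measure `μ`, `Γ` discrete, `D` a strict fundamental domain
(`h : IsSFD Γ D`) with `μ D < ∞`. `T_g x = h.rep (g * x)` preserves `μ.restrict D` (`mp_rep`); `μ {x ∈ D : r (g x) = l} → 0` as `g → ∞`
(`tendsto_r_eq`); `μ {x ∈ D : r (g x) ≠ 1} → 0` as `g → 1` (`tendsto_r_ne`).
-/

set_option autoImplicit false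
set_option linter.unusedSectionVars false

open Filter Topology MeasureTheory
open scoped Pointwise ENNReal

namespace Pool.Agent.Helper96.FR

variable {G₁ : Type*} [Group G₁] [MeasurableSpace G₁] {Γ : Subgroup G₁} {D : Set G₁}

namespace IsSFD

variable (h : IsSFD Γ D)

theorem measurableSet_r_mem [MeasurableMul G₁] [Countable Γ] (s : Set Γ) :
    MeasurableSet {g | h.r g ∈ s} := by
  have e : {g | h.r g ∈ s} = ⋃ l ∈ s, {g | h.r g = l} := by
    ext g
    simp
  rw [e]
  exact MeasurableSet.biUnion (Set.to_countable s) fun l _ => h.measurableSet_r l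

theorem measurable_rep [MeasurableMul G₁] [Countable Γ] : Measurable h.rep := by
  intro B hB
  have e : h.rep ⁻¹' B = ⋃ l : Γ, ({g | h.r g = l} ∩ (fun g => g * (l : G₁)⁻¹) ⁻¹' B) := by
    ext g
    simp only [Set.mem_preimage, Set.mem_iUnion, Set.mem_inter_iff]
    constructor
    · intro hg
      exact ⟨h.r g, rfl, hg⟩
    · rintro ⟨l, hl, hl2⟩
      have hl : h.r g = l := hl
      subst hl
      exact hl2
  rw [e]
  exact MeasurableSet.iUnion fun l => (h.measurableSet_r l).inter (measurable_mul_const _ hB)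

/-- The measure of a set is the sum of the measures of its pieces. -/
theorem measure_eq_tsum [MeasurableMul G₁] [Countable Γ] (μ : Measure G₁) {S : Set G₁} (hS : MeasurableSet S)
    {k : G₁ → G₁} (hk : Measurable k) :
    μ S = ∑' l : Γ, μ (S ∩ {x | h.r (k x) = l}) := by
  have hm : ∀ l : Γ, MeasurableSet (S ∩ {x | h.r (k x) = l}) := fun l =>
    hS.inter (hk (h.measurableSet_r l))
  rw [← measure_iUnion (fun l l' hll' => ?_) hm]
  · congr 1
    ext x
    simp
  · refine Set.disjoint_left.2 fun x hx hx' => hll' ?_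
    have h1 : h.r (k x) = l := hx.2
    have h2 : h.r (k x) = l' := hx'.2
    rw [← h1, h2]

section Haar

variable [MeasurableMul G₁] [Countable Γ] (μ : Measure G₁) [μ.IsMulLeftInvariant] [μ.IsMulRightInvariant]

theorem measure_translate (g : G₁) (l : G₁) (S : Set G₁) :
    μ {x | g * x * l ∈ S} = μ S := by
  have h1 : μ {x | g * x * l ∈ S} = μ {x | x * l ∈ S} := measure_preimage_mul μ g {x | x * l ∈ S}
  rw [h1]
  exact measure_preimage_mul_right μ l S

theorem measure_rep (g : G₁) {B : Set G₁} (hB : MeasurableSet B) :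
    μ (D ∩ {x | h.rep (g * x) ∈ B}) = μ (D ∩ B) := by
  have hk : Measurable fun x : G₁ => g * x := measurable_const_mul g
  have hk' : Measurable fun x : G₁ => g⁻¹ * x := measurable_const_mul g⁻¹
  have hS : MeasurableSet (D ∩ {x | h.rep (g * x) ∈ B}) :=
    h.meas.inter (hk (h.measurable_rep hB))
  rw [h.measure_eq_tsum μ hS hk, h.measure_eq_tsum μ (h.meas.inter hB) hk',
    ← Equiv.tsum_eq (Equiv.inv Γ) (fun l : Γ => μ (D ∩ B ∩ {x | h.r (g⁻¹ * x) = l}))]
  refine tsum_congr fun l => ?_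
  have e : D ∩ {x | h.rep (g * x) ∈ B} ∩ {x | h.r (g * x) = l} =
      {x | g * x * (l : G₁)⁻¹ ∈ D ∩ B ∩ {y | h.r (g⁻¹ * y) = l⁻¹}} := by
    ext x
    constructor
    · rintro ⟨⟨hx, hx2⟩, hx3⟩
      have hx3 : h.r (g * x) = l := hx3
      have e1 : h.rep (g * x) = g * x * (l : G₁)⁻¹ := by rw [rep, hx3]
      have hx2 : h.rep (g * x) ∈ B := hx2
      rw [e1] at hx2
      refine ⟨⟨?_, hx2⟩, ?_⟩
      · rw [← e1]
        exact h.rep_mem _
      · show h.r (g⁻¹ * (g * x * (l : G₁)⁻¹)) = l⁻¹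
        rw [h.r_eq_iff]
        have : g⁻¹ * (g * x * (l : G₁)⁻¹) * ((l⁻¹ : Γ) : G₁)⁻¹ = x := by
          rw [Subgroup.coe_inv]
          group
        rwa [this]
    · rintro ⟨⟨hx, hx2⟩, hx3⟩
      have hx3 : h.r (g⁻¹ * (g * x * (l : G₁)⁻¹)) = l⁻¹ := hx3
      rw [h.r_eq_iff] at hx3
      have e2 : g⁻¹ * (g * x * (l : G₁)⁻¹) * ((l⁻¹ : Γ) : G₁)⁻¹ = x := by
        rw [Subgroup.coe_inv]
        group
      rw [e2] at hx3
      have hl : h.r (g * x) = l := h.r_eq hx
      refine ⟨⟨hx3, ?_⟩, hl⟩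
      show h.rep (g * x) ∈ B
      rw [rep, hl]
      exact hx2
  rw [e, measure_translate]
  rfl

/-- `x ↦ rep (g x)` preserves the restriction of the Haar measure to `D`. -/
theorem mp_rep (g : G₁) : MeasurePreserving (fun x => h.rep (g * x)) (μ.restrict D) (μ.restrict D) := by
  have hm : Measurable fun x => h.rep (g * x) := h.measurable_rep.comp (measurable_const_mul g)
  refine ⟨hm, ?_⟩
  ext B hB
  rw [Measure.map_apply hm hB, Measure.restrict_apply (hm hB), Measure.restrict_apply hB, Set.inter_comm, Set.inter_comm B]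
  exact h.measure_rep μ g hB

theorem rep_rep (g k x : G₁) : h.rep (g * h.rep (k * x)) = h.rep (g * k * x) := by
  rw [h.rep_left, mul_assoc]

theorem rep_one_ae : (fun x => h.rep ((1 : G₁) * x)) =ᵐ[μ.restrict D] id := by
  rw [EventuallyEq, ae_restrict_iff' h.meas]
  exact Eventually.of_forall fun x hx => by
    rw [one_mul]
    exact h.rep_of_mem hx

end Haar

section Top

variable [TopologicalSpace G₁] [IsTopologicalGroup G₁] [SecondCountableTopology G₁] [LocallyCompactSpace G₁]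
  [T2Space G₁] [BorelSpace G₁] [Countable Γ] (μ : Measure G₁) [μ.IsHaarMeasure] [μ.IsMulRightInvariant]

include h in
theorem measure_ne_zero : μ D ≠ 0 := by
  intro h0
  have h1 : μ Set.univ = 0 := by
    have e : (Set.univ : Set G₁) = ⋃ l : Γ, {x | 1 * x * (l : G₁)⁻¹ ∈ D} := by
      ext x
      simp only [Set.mem_univ, Set.mem_iUnion, true_iff]
      refine ⟨h.r x, ?_⟩
      show 1 * x * (h.r x : G₁)⁻¹ ∈ D
      rw [one_mul]
      exact h.rep_mem x
    rw [e, measure_iUnion_null_iff]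
    intro l
    rw [measure_translate, h0]
  exact (isOpen_univ.measure_pos μ ⟨1, trivial⟩).ne' h1

/-- The mass of `{r (g x) = l}` tends to `0` as `g` tends to infinity. -/
theorem tendsto_r_eq (hfin : μ D ≠ ∞) (l : Γ) :
    Tendsto (fun g : G₁ => μ.restrict D {x | h.r (g * x) = l}) (cocompact G₁) (𝓝 0) := by
  rw [ENNReal.tendsto_nhds_zero]
  intro ε hε
  have hε2 : ε / 2 ≠ 0 := (ENNReal.half_pos hε.ne').ne'
  obtain ⟨K, hKD, hK, hKm⟩ := h.meas.exists_isCompact_sdiff_lt hfin hε2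
  have hKc : IsCompact (K * ({(l : G₁)} : Set G₁) * K⁻¹) := (hK.mul isCompact_singleton).mul hK.inv
  filter_upwards [hKc.compl_mem_cocompact] with g hg
  have hm : MeasurableSet {x | h.r (g * x) = l} := measurable_const_mul g (h.measurableSet_r l)
  rw [Measure.restrict_apply hm]
  have hsub : {x | h.r (g * x) = l} ∩ D ⊆ (D \ K) ∪ {x | g * x * (l : G₁)⁻¹ ∈ D \ K} := by
    rintro x ⟨hx, hxD⟩
    have hx : g * x * (l : G₁)⁻¹ ∈ D := h.r_eq_iff.1 hx
    by_cases h1 : x ∈ K
    · by_cases h2 : g * x * (l : G₁)⁻¹ ∈ K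
      · exfalso
        apply hg
        refine ⟨g * x, ⟨g * x * (l : G₁)⁻¹, h2, (l : G₁), rfl, ?_⟩, x⁻¹, Set.inv_mem_inv.2 h1, ?_⟩
        · show g * x * (l : G₁)⁻¹ * (l : G₁) = g * x
          rw [inv_mul_cancel_right]
        · show g * x * x⁻¹ = g
          rw [mul_inv_cancel_right]
      · exact Or.inr ⟨hx, h2⟩
    · exact Or.inl ⟨hxD, h1⟩
  calc μ ({x | h.r (g * x) = l} ∩ D) ≤ μ ((D \ K) ∪ {x | g * x * (l : G₁)⁻¹ ∈ D \ K}) := measure_mono hsub
    _ ≤ μ (D \ K) + μ {x | g * x * (l : G₁)⁻¹ ∈ D \ K} := measure_union_le _ _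
    _ = μ (D \ K) + μ (D \ K) := by rw [measure_translate]
    _ ≤ ε / 2 + ε / 2 := add_le_add hKm.le hKm.le
    _ = ε := ENNReal.add_halves ε

/-- The mass of `{r (g x) ≠ 1}` tends to `0` as `g` tends to the identity. -/
theorem tendsto_r_ne (hfin : μ D ≠ ∞) :
    Tendsto (fun g : G₁ => μ.restrict D {x | h.r (g * x) ≠ 1}) (𝓝 1) (𝓝 0) := by
  rw [ENNReal.tendsto_nhds_zero]
  intro ε hε
  have hε2 : ε / 2 ≠ 0 := (ENNReal.half_pos hε.ne').ne'
  obtain ⟨K, hKD, hK, hKm⟩ := h.meas.exists_isCompact_sdiff_lt hfin hε2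
  have hKfin : μ K ≠ ∞ := (measure_mono hKD).trans_lt (lt_top_iff_ne_top.2 hfin) |>.ne
  obtain ⟨U, hKU, hU, hUm, hUK⟩ := hK.measurableSet.exists_isOpen_sdiff_lt hKfin hε2
  obtain ⟨V, hV, hVK⟩ := compact_open_separated_mul_left hK hU hKU
  filter_upwards [hV] with g hg
  have hm : MeasurableSet {x | h.r (g * x) ≠ 1} := by
    have := (measurable_const_mul g (h.measurableSet_r 1)).compl
    exact this
  rw [Measure.restrict_apply hm]
  have hsub : {x | h.r (g * x) ≠ 1} ∩ D ⊆ (D \ K) ∪ {x | g * x * (1 : G₁) ∈ U \ K} := by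
    rintro x ⟨hx, hxD⟩
    by_cases h1 : x ∈ K
    · right
      show g * x * 1 ∈ U \ K
      rw [mul_one]
      refine ⟨hVK ⟨g, hg, x, h1, rfl⟩, fun h2 => hx ?_⟩
      exact h.r_of_mem (hKD h2)
    · exact Or.inl ⟨hxD, h1⟩
  calc μ ({x | h.r (g * x) ≠ 1} ∩ D) ≤ μ ((D \ K) ∪ {x | g * x * (1 : G₁) ∈ U \ K}) := measure_mono hsub
    _ ≤ μ (D \ K) + μ {x | g * x * (1 : G₁) ∈ U \ K} := measure_union_le _ _
    _ = μ (D \ K) + μ (U \ K) := by rw [measure_translate]
    _ ≤ ε / 2 + ε / 2 := add_le_add hKm.le hUK.le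
    _ = ε := ENNReal.add_halves ε

end Top

end IsSFD

end Pool.Agent.Helper96.FR
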