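import Pool.Agent.Helper96.FR.Lat1

/-!
# Project FR (MP_0f6f3f_an): lattices, the probability space `X = D`, the action of `G₁` and the cocycle

`IsLattice μ Γ`: `Γ` is discrete and has a fundamental domain (in the sense of Mathlib) of finite measure. `exists_isSFD_of_lattice`: then there is a
strict measurable fundamental domain `D` of finite measure. For `h : IsSFD Γ D`: `h.tr g : D ≃ᵐ D` (action of `G₁` on `X = D = G₁/Γ`),
`h.coc g x = r (g x) : Γ` (cocycle), `h.nu μ` the probability measure. `exists_equi`: equivariant measurable maps `G₁ → F`, `F` discrete.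
-/

set_option autoImplicit false
set_option linter.unusedSectionVars false

open Filter Topology MeasureTheory
open scoped Pointwise ENNReal

namespace Pool.Agent.Helper96.FR

section Lattice

variable {G₁ : Type*} [Group G₁] [MeasurableSpace G₁]

/-- Lattices. -/
structure IsLattice [TopologicalSpace G₁] (μ : Measure G₁) (Γ : Subgroup G₁) : Prop where
  discrete : DiscreteTopology Γ
  fin : ∃ S : Set G₁, IsFundamentalDomain Γ.op S μ ∧ μ S ≠ ∞

theorem IsSFD.isFundamentalDomain {Γ : Subgroup G₁} {D : Set G₁} (h : IsSFD Γ D) (μ : Measure G₁) :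
    IsFundamentalDomain Γ.op D μ := by
  have e1 : ∀ (g : Γ.op) (x : G₁), g • x = x * (MulOpposite.unop (g : G₁ᵐᵒᵖ)) := fun g x => rfl
  have hm : ∀ g : Γ.op, MulOpposite.unop (g : G₁ᵐᵒᵖ) ∈ Γ := fun g => g.2
  refine ⟨h.meas.nullMeasurableSet, Eventually.of_forall fun x => ?_, fun g g' hgg' => ?_⟩
  · refine ⟨⟨MulOpposite.op ((h.r x : G₁)⁻¹), ?_⟩, ?_⟩
    · exact Γ.inv_mem (h.r x).2
    · exact h.rep_mem x
  · refine Disjoint.aedisjoint (Set.disjoint_left.2 ?_)
    rintro x ⟨y, hy, hyx⟩ ⟨y', hy', hyx'⟩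
    apply hgg'
    have hyx : y * MulOpposite.unop (g : G₁ᵐᵒᵖ) = x := hyx
    have hyx' : y' * MulOpposite.unop (g' : G₁ᵐᵒᵖ) = x := hyx'
    have h1 := h.uniq x ⟨_, hm g⟩ ⟨_, hm g'⟩ (by rw [← hyx]; simpa using hy) (by
      rw [← hyx']; simpa using hy')
    have h2 : MulOpposite.unop (g : G₁ᵐᵒᵖ) = MulOpposite.unop (g' : G₁ᵐᵒᵖ) := congrArg Subtype.val h1
    exact Subtype.ext (MulOpposite.unop_injective h2)

variable [TopologicalSpace G₁] [IsTopologicalGroup G₁] [SecondCountableTopology G₁] [BorelSpace G₁]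

theorem exists_isSFD_of_lattice {μ : Measure G₁} [μ.IsMulRightInvariant] {Γ : Subgroup G₁}
    (hΓ : IsLattice μ Γ) : ∃ D : Set G₁, IsSFD Γ D ∧ μ D ≠ ∞ := by
  have hd : DiscreteTopology Γ := hΓ.discrete
  have hc : Countable Γ := countable_of_discrete Γ
  obtain ⟨D, hD⟩ := exists_isSFD Γ
  obtain ⟨S, hS, hfin⟩ := hΓ.fin
  have hc' : Countable Γ.op := by
    have e : Γ.op → Γ := fun g => ⟨_, g.2⟩
    have hinj : Function.Injective (fun g : Γ.op => (⟨MulOpposite.unop (g : G₁ᵐᵒᵖ), g.2⟩ : Γ)) := by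
      intro g g' hg
      exact Subtype.ext (MulOpposite.unop_injective (congrArg Subtype.val hg))
    exact hinj.countable
  have hm : MeasurableSpace Γ.op := ⊤
  refine ⟨D, hD, ?_⟩
  have h1 := (hD.isFundamentalDomain μ).measure_eq hS
  rw [h1]
  exact hfin

/-- Equivariant maps onto a discrete subgroup. -/
theorem exists_equi (F : Subgroup G₁) [DiscreteTopology F] :
    ∃ p : G₁ → F, (∀ (f : F) (x : G₁), p (f * x) = f * p x) ∧ ∀ s : Set F, MeasurableSet (p ⁻¹' s) := by
  have hc : Countable F := countable_of_discrete F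
  obtain ⟨D, hD⟩ := exists_isSFD F
  refine ⟨fun x => (hD.r x⁻¹)⁻¹, fun f x => ?_, fun s => ?_⟩
  · have e : ((f : G₁) * x)⁻¹ = x⁻¹ * ((f⁻¹ : F) : G₁) := by
      rw [mul_inv_rev, Subgroup.coe_inv]
    simp only
    rw [e, hD.r_mul, mul_inv_rev, inv_inv]
  · have h1 : MeasurableSet {g | hD.r g ∈ (fun l : F => l⁻¹) ⁻¹' s} := hD.measurableSet_r_mem _
    exact measurable_inv h1

end Lattice

namespace IsSFD

variable {G₁ : Type*} [Group G₁] [MeasurableSpace G₁] {Γ : Subgroup G₁} {D : Set G₁} (h : IsSFD Γ D)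

/-- The action of `g` on `X = D`. -/
noncomputable def tr [MeasurableMul G₁] [Countable Γ] (g : G₁) : D ≃ᵐ D where
  toFun x := ⟨h.rep (g * x), h.rep_mem _⟩
  invFun x := ⟨h.rep (g⁻¹ * x), h.rep_mem _⟩
  left_inv x := by
    apply Subtype.ext
    show h.rep (g⁻¹ * h.rep (g * x)) = x
    rw [h.rep_left, inv_mul_cancel_left, h.rep_of_mem x.2]
  right_inv x := by
    apply Subtype.ext
    show h.rep (g * h.rep (g⁻¹ * x)) = x
    rw [h.rep_left, mul_inv_cancel_left, h.rep_of_mem x.2]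
  measurable_toFun := by
    refine Measurable.subtype_mk ?_
    exact h.measurable_rep.comp ((measurable_const_mul g).comp measurable_subtype_coe)
  measurable_invFun := by
    refine Measurable.subtype_mk ?_
    exact h.measurable_rep.comp ((measurable_const_mul g⁻¹).comp measurable_subtype_coe)

/-- The cocycle. -/
noncomputable def coc (g : G₁) (x : D) : Γ := h.r (g * x)

theorem coe_tr [MeasurableMul G₁] [Countable Γ] (g : G₁) (x : D) : (h.tr g x : G₁) = h.rep (g * x) := rfl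

/-- `g x = (g • x) a(g, x)` -/
theorem tr_mul_coc [MeasurableMul G₁] [Countable Γ] (g : G₁) (x : D) :
    (h.tr g x : G₁) * (h.coc g x : G₁) = g * x := h.rep_mul_r _

theorem tr_one [MeasurableMul G₁] [Countable Γ] (x : D) : h.tr 1 x = x := by
  apply Subtype.ext
  rw [h.coe_tr, one_mul, h.rep_of_mem x.2]

theorem tr_mul [MeasurableMul G₁] [Countable Γ] (g k : G₁) (x : D) : h.tr (g * k) x = h.tr g (h.tr k x) := by
  apply Subtype.ext
  rw [h.coe_tr, h.coe_tr, h.coe_tr, h.rep_left, mul_assoc]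

theorem coc_one [MeasurableMul G₁] [Countable Γ] (x : D) : h.coc 1 x = 1 := by
  unfold coc
  rw [one_mul, h.r_of_mem x.2]

theorem coc_mul [MeasurableMul G₁] [Countable Γ] (g k : G₁) (x : D) :
    h.coc (g * k) x = h.coc g (h.tr k x) * h.coc k x := by
  unfold coc
  rw [mul_assoc, h.r_left, h.coe_tr]

theorem measurableSet_coc [MeasurableMul G₁] [Countable Γ] (g : G₁) (s : Set Γ) :
    MeasurableSet {x : D | h.coc g x ∈ s} :=
  ((measurable_const_mul g).comp measurable_subtype_coe) (h.measurableSet_r_mem s)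

/-- The probability measure on `X = D`. -/
noncomputable def nu (_h : IsSFD Γ D) (μ : Measure G₁) : Measure D := (μ D)⁻¹ • Measure.comap Subtype.val μ

theorem nu_apply (μ : Measure G₁) (s : Set D) : h.nu μ s = (μ D)⁻¹ * μ (Subtype.val '' s) := by
  unfold nu
  rw [Measure.smul_apply, comap_subtype_coe_apply h.meas, smul_eq_mul]

theorem nu_coe (μ : Measure G₁) {B : Set G₁} :
    h.nu μ {x : D | (x : G₁) ∈ B} = (μ D)⁻¹ * μ (D ∩ B) := by
  rw [h.nu_apply]
  congr 2
  ext x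
  simp [and_comm]

theorem isProbabilityMeasure_nu {μ : Measure G₁} (h0 : μ D ≠ 0) (h1 : μ D ≠ ∞) :
    IsProbabilityMeasure (h.nu μ) := by
  refine ⟨?_⟩
  rw [h.nu_apply, Set.image_univ, Subtype.range_coe, ENNReal.inv_mul_cancel h0 h1]

theorem mp_tr [MeasurableMul G₁] [Countable Γ] (μ : Measure G₁) [μ.IsMulLeftInvariant] [μ.IsMulRightInvariant]
    (g : G₁) : MeasurePreserving (h.tr g) (h.nu μ) (h.nu μ) := by
  refine ⟨(h.tr g).measurable, ?_⟩
  ext B hB
  rw [Measure.map_apply (h.tr g).measurable hB]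
  obtain ⟨B', hB', rfl⟩ := hB
  have e1 : (h.tr g) ⁻¹' (Subtype.val ⁻¹' B') = {x : D | (x : G₁) ∈ {y | h.rep (g * y) ∈ B'}} := rfl
  have e2 : (Subtype.val ⁻¹' B' : Set D) = {x : D | (x : G₁) ∈ B'} := rfl
  rw [e1, e2, h.nu_coe, h.nu_coe, h.measure_rep μ g hB']

section Top

variable [TopologicalSpace G₁] [IsTopologicalGroup G₁] [SecondCountableTopology G₁] [LocallyCompactSpace G₁]
  [T2Space G₁] [BorelSpace G₁] [Countable Γ] (μ : Measure G₁) [μ.IsHaarMeasure] [μ.IsMulRightInvariant]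

theorem tendsto_coc_eq (hfin : μ D ≠ ∞) (l : Γ) :
    Tendsto (fun g : G₁ => h.nu μ {x : D | h.coc g x = l}) (cocompact G₁) (𝓝 0) := by
  have h1 := h.tendsto_r_eq μ hfin l
  have h2 : Tendsto (fun g : G₁ => (μ D)⁻¹ * μ.restrict D {x | h.r (g * x) = l}) (cocompact G₁)
      (𝓝 ((μ D)⁻¹ * 0)) :=
    ENNReal.Tendsto.const_mul h1 (Or.inr (ENNReal.inv_ne_top.2 (h.measure_ne_zero μ)))
  rw [mul_zero] at h2
  refine h2.congr fun g => ?_
  have e : {x : D | h.coc g x = l} = {x : D | (x : G₁) ∈ {y | h.r (g * y) = l}} := rfl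
  have hm : MeasurableSet {x | h.r (g * x) = l} := measurable_const_mul g (h.measurableSet_r l)
  rw [e, h.nu_coe, Measure.restrict_apply hm, Set.inter_comm]

theorem tendsto_coc_ne (hfin : μ D ≠ ∞) :
    Tendsto (fun g : G₁ => h.nu μ {x : D | h.coc g x ≠ 1}) (𝓝 1) (𝓝 0) := by
  have h1 := h.tendsto_r_ne μ hfin
  have h2 : Tendsto (fun g : G₁ => (μ D)⁻¹ * μ.restrict D {x | h.r (g * x) ≠ 1}) (𝓝 1)
      (𝓝 ((μ D)⁻¹ * 0)) :=
    ENNReal.Tendsto.const_mul h1 (Or.inr (ENNReal.inv_ne_top.2 (h.measure_ne_zero μ)))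
  rw [mul_zero] at h2
  refine h2.congr fun g => ?_
  have e : {x : D | h.coc g x ≠ 1} = {x : D | (x : G₁) ∈ {y | h.r (g * y) ≠ 1}} := rfl
  have hm : MeasurableSet {x | h.r (g * x) ≠ 1} := by
    have := (measurable_const_mul g (h.measurableSet_r 1)).compl
    exact this
  rw [e, h.nu_coe, Measure.restrict_apply hm, Set.inter_comm]

end Top

end IsSFD

end Pool.Agent.Helper96.FR
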