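import Pool.Agent.Helper96.FR.Lat3

/-!
# Project FR (MP_0f6f3f_an): criteria for lattices

`lattice_of_SFD`: a discrete subgroup with a strict fundamental domain of finite nonzero measure, for a left and right invariant measure, is a lattice.
`lattice_map`: the image of a lattice under a continuous open surjective homomorphism with finite kernel is a lattice.
`lattice_transfer`: lattices and isomorphisms of topological groups.
-/

set_option autoImplicit false
set_option linter.unusedSectionVars false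

open Filter Topology MeasureTheory
open scoped Pointwise ENNReal

namespace Pool.Agent.Helper96.FR

section SFD

variable {G : Type*} [Group G] [TopologicalSpace G] [IsTopologicalGroup G] [SecondCountableTopology G]
  [MeasurableSpace G] [BorelSpace G]

theorem lattice_of_SFD (Γ : Subgroup G) [DiscreteTopology Γ] (μ : Measure G) [μ.IsMulLeftInvariant]
    [μ.IsMulRightInvariant] {D : Set G} (hD : IsSFD Γ D) (h0 : μ D ≠ 0) (hfin : μ D ≠ ∞) : Lattice Γ := by
  have hcount : Countable Γ := countable_of_discrete Γ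
  refine ⟨inferInstance, ?_⟩
  let mQ : MeasurableSpace (G ⧸ Γ) := borel (G ⧸ Γ)
  have bQ : @BorelSpace (G ⧸ Γ) _ mQ := @BorelSpace.mk _ _ mQ rfl
  have hmk : @Measurable _ _ _ mQ ((↑) : G → G ⧸ Γ) := QuotientGroup.continuous_mk.borel_measurable.mono
    (le_of_eq BorelSpace.measurable_eq.symm) le_rfl
  let ν : @Measure (G ⧸ Γ) mQ := @Measure.map _ _ _ mQ ((↑) : G → G ⧸ Γ) (μ.restrict D)
  have hν : ∀ s : Set (G ⧸ Γ), @MeasurableSet _ mQ s → ν s = μ (D ∩ ((↑) : G → G ⧸ Γ) ⁻¹' s) := by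
    intro s hs
    have h1 : ν s = (μ.restrict D) (((↑) : G → G ⧸ Γ) ⁻¹' s) := Measure.map_apply hmk hs
    rw [h1, Measure.restrict_apply (hmk hs), Set.inter_comm]
  have huniv : ν Set.univ = μ D := by
    rw [hν _ MeasurableSet.univ, Set.preimage_univ, Set.inter_univ]
  refine ⟨ν, by rwa [huniv], by rwa [huniv], fun g s hs => ?_⟩
  have hsm : @Measurable _ _ mQ mQ (fun x : G ⧸ Γ => g • x) := by
    have hc : Continuous (fun x : G ⧸ Γ => g • x) := continuous_const_smul g
    exact hc.borel_measurable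
  rw [hν _ (hsm hs), hν _ hs]
  have h2 := hD.measure_rep μ g (hmk hs)
  rw [← h2]
  congr 1
  ext x
  simp only [Set.mem_inter_iff, Set.mem_preimage, Set.mem_ofPred_eq]
  have h3 : ((hD.rep (g * x) : G) : G ⧸ Γ) = g • (x : G ⧸ Γ) := by
    have h4 : (g • (x : G ⧸ Γ)) = ((g * x : G) : G ⧸ Γ) := rfl
    rw [h4, QuotientGroup.eq, IsSFD.rep, mul_inv_rev, inv_inv, mul_assoc, inv_mul_cancel, mul_one]
    exact (hD.r (g * x)).2
  rw [h3]

end SFD

section Map

variable {G H : Type*} [Group G] [TopologicalSpace G] [IsTopologicalGroup G] [T2Space G]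
  [Group H] [TopologicalSpace H] [IsTopologicalGroup H]

theorem discrete_map (Γ : Subgroup G) [DiscreteTopology Γ] (f : G →* H) (ho : IsOpenMap f)
    (hker : (f.ker : Set G).Finite) : DiscreteTopology (Γ.map f) := by
  have hcl : IsClosed (Γ : Set G) := Subgroup.isClosed_of_discrete
  obtain ⟨V, hV, hV1, hVΓ⟩ := exists_nhd Γ
  have hk : ∀ k ∈ (f.ker : Set G), ∀ᶠ u in 𝓝 (1 : G), u * k⁻¹ ∈ Γ → u = 1 := by
    intro k hk
    by_cases hkΓ : k⁻¹ ∈ Γ
    · filter_upwards [hV.mem_nhds hV1] with u hu huΓ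
      have h1 : u ∈ Γ := by
        have := Γ.mul_mem huΓ (Γ.inv_mem hkΓ)
        rwa [inv_inv, inv_mul_cancel_right] at this
      exact (hVΓ 1 hV1 u hu (by rwa [inv_one, one_mul])).symm
    · have h1 : (fun u : G => u * k⁻¹) ⁻¹' (Γ : Set G)ᶜ ∈ 𝓝 (1 : G) := by
        refine (hcl.isOpen_compl.preimage (continuous_mul_const _)).mem_nhds ?_
        show (1 : G) * k⁻¹ ∉ Γ
        rwa [one_mul]
      filter_upwards [h1] with u hu huΓ
      exact absurd huΓ hu
  have hall : ∀ᶠ u in 𝓝 (1 : G), ∀ k ∈ (f.ker : Set G), u * k⁻¹ ∈ Γ → u = 1 :=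
    (hker.eventually_all).2 hk
  obtain ⟨U, hU, hUo, hU1⟩ := mem_nhds_iff.1 hall
  have hop : IsOpen (f '' U) := ho U hUo
  have hsing : IsOpen ({1} : Set (Γ.map f)) := by
    have e : ({1} : Set (Γ.map f)) = Subtype.val ⁻¹' (f '' U) := by
      ext ⟨x, hx⟩
      simp only [Set.mem_singleton_iff, Set.mem_preimage]
      constructor
      · intro h
        have h : x = 1 := congrArg Subtype.val h
        exact ⟨1, hU1, by rw [map_one]; exact h.symm⟩
      · rintro ⟨u, hu, hux⟩
        obtain ⟨γ, hγ, rfl⟩ := hx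
        have h1 : u⁻¹ * γ ∈ f.ker := by
          rw [MonoidHom.mem_ker, map_mul, map_inv, hux, inv_mul_cancel]
        have h2 := hU hu (u⁻¹ * γ)⁻¹ (f.ker.inv_mem h1) (by
          rw [inv_inv, mul_inv_cancel_left]
          exact hγ)
        refine Subtype.ext ?_
        show f γ = 1
        rw [← hux, h2, map_one]
    rw [e]
    exact hop.preimage continuous_subtype_val
  exact discreteTopology_of_isOpen_singleton_one hsing

/-- Images of lattices. -/
theorem lattice_map (Γ : Subgroup G) (hΓ : Lattice Γ) (f : G →* H) (hc : Continuous f) (ho : IsOpenMap f)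
    (hs : Function.Surjective f) (hker : (f.ker : Set G).Finite) : Lattice (Γ.map f) := by
  have hd : DiscreteTopology Γ := hΓ.1
  refine ⟨discrete_map Γ f ho hker, ?_⟩
  obtain ⟨ν, h0, hfin, hinv⟩ := hΓ.2
  let mQ : MeasurableSpace (G ⧸ Γ) := borel (G ⧸ Γ)
  have bQ : @BorelSpace (G ⧸ Γ) _ mQ := @BorelSpace.mk _ _ mQ rfl
  let mR : MeasurableSpace (H ⧸ Γ.map f) := borel (H ⧸ Γ.map f)
  have bR : @BorelSpace (H ⧸ Γ.map f) _ mR := @BorelSpace.mk _ _ mR rfl
  let p : G ⧸ Γ → H ⧸ Γ.map f := Quotient.lift (fun g : G => ((f g : H) : H ⧸ Γ.map f)) (by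
    intro a b hab
    have h1 : a⁻¹ * b ∈ Γ := QuotientGroup.leftRel_apply.1 hab
    show ((f a : H) : H ⧸ Γ.map f) = ((f b : H) : H ⧸ Γ.map f)
    rw [QuotientGroup.eq]
    exact ⟨a⁻¹ * b, h1, by rw [map_mul, map_inv]⟩)
  have hp : ∀ g : G, p (g : G ⧸ Γ) = ((f g : H) : H ⧸ Γ.map f) := fun g => rfl
  have hpc : Continuous p := Continuous.quotient_lift (QuotientGroup.continuous_mk.comp hc) _
  have hpm : @Measurable _ _ mQ mR p := hpc.borel_measurable
  have hpe : ∀ (g : G) (x : G ⧸ Γ), p (g • x) = f g • p x := by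
    intro g x
    obtain ⟨y, rfl⟩ := QuotientGroup.mk_surjective x
    show ((f (g * y) : H) : H ⧸ Γ.map f) = ((f g * f y : H) : H ⧸ Γ.map f)
    rw [map_mul]
  let ν' : @Measure (H ⧸ Γ.map f) mR := @Measure.map _ _ mQ mR p ν
  have hν : ∀ s : Set (H ⧸ Γ.map f), @MeasurableSet _ mR s → ν' s = ν (p ⁻¹' s) := fun s hs' =>
    Measure.map_apply hpm hs'
  have huniv : ν' Set.univ = ν Set.univ := by
    rw [hν _ MeasurableSet.univ, Set.preimage_univ]
  refine ⟨ν', by rwa [huniv], by rwa [huniv], fun h s hs' => ?_⟩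
  obtain ⟨g, rfl⟩ := hs h
  have hsm : @Measurable _ _ mR mR (fun x : H ⧸ Γ.map f => f g • x) := by
    have hc : Continuous (fun x : H ⧸ Γ.map f => f g • x) := continuous_const_smul _
    exact hc.borel_measurable
  rw [hν _ (hsm hs'), hν _ hs', ← hinv g _ (hpm hs')]
  congr 1
  ext x
  simp only [Set.mem_preimage]
  rw [hpe]

end Map

end Pool.Agent.Helper96.FR
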