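import Pool.Agent.Helper96.FR.Rge0

/-!
# Project FR (MP_0f6f3f_an): `GL(r, ℝ)` has rank at least `r`, and so has every group with a proper image of it
-/

set_option autoImplicit false
set_option linter.unusedSectionVars false

open Filter Topology Matrix

namespace Pool.Agent.Helper96.FR

open Pool.Agent.Helper90.RK (NonAm)

theorem exists_e {r : ℕ} {k l : Fin r} (hkl : k ≠ l) : ∃ (ρ : Type) (_ : Fintype ρ) (_ : DecidableEq ρ)
    (e : Fin 2 ⊕ ρ ≃ Fin r), e (Sum.inl 0) = k ∧ e (Sum.inl 1) = l := by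
  classical
  let f : Fin 2 → Fin r := ![k, l]
  have hf : Function.Injective f := by
    intro x y hxy
    fin_cases x <;> fin_cases y
    · rfl
    · exact absurd hxy hkl
    · exact absurd hxy.symm hkl
    · rfl
  let e : Fin 2 ⊕ ((Set.range f)ᶜ : Set (Fin r)) ≃ Fin r :=
    ((Equiv.ofInjective f hf).sumCongr (Equiv.refl _)).trans (Equiv.Set.sumCompl (Set.range f))
  exact ⟨((Set.range f)ᶜ : Set (Fin r)), inferInstance, inferInstance, e, rfl, rfl⟩

/-- matrices congruent to the identity modulo four -/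
def S4 : Subgroup (SpecialLinearGroup (Fin 2) ℤ) where
  carrier := {A | (4 ∣ A.1 0 0 - 1 ∧ 4 ∣ A.1 1 1 - 1) ∧ 4 ∣ A.1 0 1 ∧ 4 ∣ A.1 1 0}
  mul_mem' := by
    rintro A B ⟨⟨⟨a, ha⟩, ⟨d, hd⟩⟩, ⟨b, hb⟩, ⟨c, hc⟩⟩ ⟨⟨⟨a', ha'⟩, ⟨d', hd'⟩⟩, ⟨b', hb'⟩, ⟨c', hc'⟩⟩
    have e : ∀ x y, (A * B).1 x y = A.1 x 0 * B.1 0 y + A.1 x 1 * B.1 1 y := by
      intro x y
      have : (A * B).1 = A.1 * B.1 := rfl
      rw [this, Matrix.mul_apply, Fin.sum_univ_two]
    have ea : A.1 0 0 = 4 * a + 1 := by linarith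
    have ed : A.1 1 1 = 4 * d + 1 := by linarith
    have ea' : B.1 0 0 = 4 * a' + 1 := by linarith
    have ed' : B.1 1 1 = 4 * d' + 1 := by linarith
    refine ⟨⟨?_, ?_⟩, ?_, ?_⟩
    · rw [e, ea, hb, ea', hc']
      exact ⟨4 * a * a' + a + a' + 4 * b * c', by ring⟩
    · rw [e, ed, hc, ed', hb']
      exact ⟨4 * d * d' + d + d' + 4 * c * b', by ring⟩
    · rw [e, ea, hb, ed', hb']
      exact ⟨(4 * a + 1) * b' + b * (4 * d' + 1), by ring⟩
    · rw [e, ed, hc, ea', hc']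
      exact ⟨c * (4 * a' + 1) + (4 * d + 1) * c', by ring⟩
  one_mem' := by
    have e : (1 : SpecialLinearGroup (Fin 2) ℤ).1 = 1 := rfl
    refine ⟨⟨?_, ?_⟩, ?_, ?_⟩ <;> rw [e] <;> simp
  inv_mem' := by
    rintro A ⟨⟨⟨a, ha⟩, ⟨d, hd⟩⟩, ⟨b, hb⟩, ⟨c, hc⟩⟩
    have e : (A⁻¹).1 = adjugate A.1 := Matrix.SpecialLinearGroup.coe_inv A
    have e2 : (A⁻¹).1 = !![A.1 1 1, -A.1 0 1; -A.1 1 0, A.1 0 0] := by rw [e, adjugate_fin_two]
    refine ⟨⟨?_, ?_⟩, ?_, ?_⟩
    · rw [e2]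
      exact ⟨d, hd⟩
    · rw [e2]
      exact ⟨a, ha⟩
    · rw [e2]
      show 4 ∣ -A.1 0 1
      rw [hb]
      exact ⟨-b, by ring⟩
    · rw [e2]
      show 4 ∣ -A.1 1 0
      rw [hc]
      exact ⟨-c, by ring⟩

/-- a free group of matrices -/
def F₀ : Subgroup (SpecialLinearGroup (Fin 2) ℤ) := Subgroup.closure {uE 4, lE 4}

theorem F₀_le : F₀ ≤ S4 := by
  unfold F₀
  rw [Subgroup.closure_le]
  rintro x (rfl | rfl)
  · exact ⟨⟨by simp [uE], by simp [uE]⟩, by simp [uE], by simp [uE]⟩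
  · exact ⟨⟨by simp [lE], by simp [lE]⟩, by simp [lE], by simp [lE]⟩

section Emb

variable {r : ℕ} {ρ : Type} [Fintype ρ] [DecidableEq ρ] (e : Fin 2 ⊕ ρ ≃ Fin r)

/-- the embedding of `SL(2, ℤ)` -/
def jz : SpecialLinearGroup (Fin 2) ℤ →* GL (Fin r) ℝ := (jb e).comp (SpecialLinearGroup.map (Int.castRingHom ℝ))

theorem jz_apply (A : SpecialLinearGroup (Fin 2) ℤ) (x y : Fin 2) :
    (jz e A : Matrix (Fin r) (Fin r) ℝ) (e (Sum.inl x)) (e (Sum.inl y)) = ((A.1 x y : ℤ) : ℝ) := by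
  have h1 : (jz e A : Matrix (Fin r) (Fin r) ℝ) = bl e (SpecialLinearGroup.map (Int.castRingHom ℝ) A).1 := rfl
  rw [h1, bl_apply]
  rfl

theorem jz_uE (t : ℤ) : jz e (uE t) = jb e (uE (t : ℝ)) := by
  have : SpecialLinearGroup.map (Int.castRingHom ℝ) (uE t) = uE (t : ℝ) := by
    apply Subtype.ext
    ext x y
    have h1 : (SpecialLinearGroup.map (Int.castRingHom ℝ) (uE t)).1 x y = (((uE t).1 x y : ℤ) : ℝ) := rfl
    refine h1.trans ?_
    fin_cases x <;> fin_cases y <;> simp [uE]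
  show jb e (SpecialLinearGroup.map (Int.castRingHom ℝ) (uE t)) = _
  rw [this]

theorem jz_lE (t : ℤ) : jz e (lE t) = jb e (lE (t : ℝ)) := by
  have : SpecialLinearGroup.map (Int.castRingHom ℝ) (lE t) = lE (t : ℝ) := by
    apply Subtype.ext
    ext x y
    have h1 : (SpecialLinearGroup.map (Int.castRingHom ℝ) (lE t)).1 x y = (((lE t).1 x y : ℤ) : ℝ) := rfl
    refine h1.trans ?_
    fin_cases x <;> fin_cases y <;> simp [lE]
  show jb e (SpecialLinearGroup.map (Int.castRingHom ℝ) (lE t)) = _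
  rw [this]

/-- boundedness of entries on compact sets -/
theorem bdd_entries {C : Set (GL (Fin r) ℝ)} (hC : IsCompact C) :
    ∃ M : ℝ, ∀ g ∈ C, ∀ x y, |(g : Matrix (Fin r) (Fin r) ℝ) x y| ≤ M := by
  have h1 : ∀ x y, ∃ M : ℝ, ∀ g ∈ C, |(g : Matrix (Fin r) (Fin r) ℝ) x y| ≤ M := by
    intro x y
    have hc : Continuous fun g : GL (Fin r) ℝ => |(g : Matrix (Fin r) (Fin r) ℝ) x y| := by
      have h2 : Continuous fun g : GL (Fin r) ℝ => (g : Matrix (Fin r) (Fin r) ℝ) := Units.continuous_val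
      exact (h2.matrix_elem x y).abs
    obtain ⟨M, hM⟩ := (hC.image hc).bddAbove
    exact ⟨M, fun g hg => hM ⟨g, hg, rfl⟩⟩
  choose M hM using h1
  refine ⟨∑ x, ∑ y, |M x y|, fun g hg x y => ?_⟩
  have h2 : |M x y| ≤ ∑ y, |M x y| :=
    Finset.single_le_sum (f := fun y => |M x y|) (fun _ _ => abs_nonneg _) (Finset.mem_univ y)
  have h3 : ∑ y, |M x y| ≤ ∑ x, ∑ y, |M x y| :=
    Finset.single_le_sum (f := fun x => ∑ y, |M x y|) (fun _ _ => Finset.sum_nonneg fun _ _ => abs_nonneg _)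
      (Finset.mem_univ x)
  exact (hM x y g hg).trans ((le_abs_self _).trans (h2.trans h3))

theorem finite_jz {C : Set (GL (Fin r) ℝ)} (hC : IsCompact C) : {A : SpecialLinearGroup (Fin 2) ℤ | jz e A ∈ C}.Finite := by
  obtain ⟨M, hM⟩ := bdd_entries hC
  let N : ℤ := ⌈M⌉
  have h1 : {B : Matrix (Fin 2) (Fin 2) ℤ | ∀ x y, |B x y| ≤ N}.Finite := by
    have h2 : (Set.univ.pi fun _ : Fin 2 => (Set.univ.pi fun _ : Fin 2 => Set.Icc (-N) N)).Finite :=
      Set.Finite.pi fun _ => Set.Finite.pi fun _ => Set.finite_Icc _ _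
    refine h2.subset ?_
    intro B hB
    exact Set.mem_univ_pi.2 fun x => Set.mem_univ_pi.2 fun y => abs_le.1 (hB x y)
  have h3 : {A : SpecialLinearGroup (Fin 2) ℤ | jz e A ∈ C} ⊆
      (fun A : SpecialLinearGroup (Fin 2) ℤ => A.1) ⁻¹' {B : Matrix (Fin 2) (Fin 2) ℤ | ∀ x y, |B x y| ≤ N} := by
    intro A hA x y
    have h4 := hM _ hA (e (Sum.inl x)) (e (Sum.inl y))
    rw [jz_apply, ← Int.cast_abs] at h4
    have h5 : ((|A.1 x y| : ℤ) : ℝ) ≤ (N : ℝ) := h4.trans (Int.le_ceil M)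
    exact_mod_cast h5
  exact (h1.preimage (Subtype.val_injective.injOn)).subset h3

variable {G : Type} [Group G] [TopologicalSpace G] (f : GL (Fin r) ℝ →* G)

/-- the image of the free group in `G` -/
def fz : F₀ →* G := (f.comp (jz e)).comp F₀.subtype

theorem fz_injective (hk : ∀ g, f g = 1 → (g : Matrix (Fin r) (Fin r) ℝ) = 1 ∨ (g : Matrix (Fin r) (Fin r) ℝ) = -1) :
    Function.Injective (fz e f) := by
  rw [injective_iff_map_eq_one]
  intro A hA
  have h4 := F₀_le A.2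
  have hval : ∀ x y : Fin 2, (1 : Matrix (Fin r) (Fin r) ℝ) (e (Sum.inl x)) (e (Sum.inl y)) =
      (1 : Matrix (Fin 2) (Fin 2) ℝ) x y := by
    intro x y
    rw [one_apply, one_apply]
    simp
  rcases hk (jz e A) hA with h | h
  · apply Subtype.ext
    apply Subtype.ext
    ext x y
    have h1 := jz_apply e (A : SpecialLinearGroup (Fin 2) ℤ) x y
    rw [h, hval] at h1
    have h2 : ((1 : Matrix (Fin 2) (Fin 2) ℤ) x y : ℝ) = (1 : Matrix (Fin 2) (Fin 2) ℝ) x y := by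
      rw [one_apply, one_apply]
      split_ifs <;> simp
    rw [← h2] at h1
    have h3 : (A : SpecialLinearGroup (Fin 2) ℤ).1 x y = (1 : Matrix (Fin 2) (Fin 2) ℤ) x y := by exact_mod_cast h1.symm
    exact h3
  · exfalso
    have h1 := jz_apply e (A : SpecialLinearGroup (Fin 2) ℤ) 0 0
    rw [h, Matrix.neg_apply, hval, one_apply_eq] at h1
    have h3 : (A : SpecialLinearGroup (Fin 2) ℤ).1 0 0 = -1 := by exact_mod_cast h1.symm
    have h5 := h4.1.1
    rw [h3] at h5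
    omega

theorem range_fz : (fz e f).range = Subgroup.closure {f (jb e (uE 4)), f (jb e (lE 4))} := by
  unfold fz
  rw [MonoidHom.range_comp, Subgroup.range_subtype, F₀, MonoidHom.map_closure]
  congr 1
  rw [Set.image_pair]
  show {f (jz e (uE 4)), f (jz e (lE 4))} = _
  rw [jz_uE, jz_lE]
  norm_num

theorem nonAm_range (hk : ∀ g, f g = 1 → (g : Matrix (Fin r) (Fin r) ℝ) = 1 ∨ (g : Matrix (Fin r) (Fin r) ℝ) = -1) :
    NonAm (fz e f).range := by
  rw [Pool.Agent.Helper66.RK.nonAm_iff]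
  intro hA
  have h1 : Pool.Agent.Helper66.RK.Am F₀ := hA.congr (MonoidHom.ofInjective (fz_injective e f hk)).symm
  refine Pool.Agent.Helper66.RK.not_am_sl (Λ := F₀) F₀.subtype 4 (by norm_num)
    ⟨uE 4, Subgroup.subset_closure (Or.inl rfl)⟩ ⟨lE 4, Subgroup.subset_closure (Or.inr rfl)⟩ rfl rfl h1

theorem discrete_range [IsTopologicalGroup G] [LocallyCompactSpace G] [T2Space G]
    (hp : Tendsto f (cocompact _) (cocompact G)) : DiscreteTopology (fz e f).range := by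
  obtain ⟨K, hK, hK1⟩ := exists_compact_mem_nhds (1 : G)
  have h1 : f ⁻¹' Kᶜ ∈ cocompact (GL (Fin r) ℝ) := hp hK.compl_mem_cocompact
  obtain ⟨C, hC, hCK⟩ := mem_cocompact.1 h1
  have hfin : {A : F₀ | fz e f A ∈ K}.Finite := by
    have h2 := (finite_jz e hC).preimage (f := fun A : F₀ => (A : SpecialLinearGroup (Fin 2) ℤ))
      Subtype.val_injective.injOn
    refine h2.subset fun A hA => ?_
    by_contra hn
    exact hCK hn hA
  refine discreteTopology_of_isOpen_singleton_one ?_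
  have hT : {x : (fz e f).range | (x : G) ∈ K}.Finite := by
    have h3 := hfin.image (fun A : F₀ => (⟨fz e f A, A, rfl⟩ : (fz e f).range))
    refine h3.subset ?_
    rintro ⟨x, A, rfl⟩ hx
    exact ⟨A, hx, rfl⟩
  have hT2 : ({x : (fz e f).range | (x : G) ∈ K} \ {1}).Finite := hT.subset Set.sdiff_subset
  have hopen : IsOpen (((↑) : (fz e f).range → G) ⁻¹' interior K \ ({x : (fz e f).range | (x : G) ∈ K} \ {1})) :=
    (isOpen_interior.preimage continuous_subtype_val).sdiff hT2.isClosed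
  convert hopen using 1
  ext x
  simp only [Set.mem_singleton_iff, Set.mem_sdiff, Set.mem_preimage, Set.mem_ofPred_eq, not_and, not_not]
  constructor
  · rintro rfl
    exact ⟨mem_interior_iff_mem_nhds.2 hK1, fun _ => rfl⟩
  · rintro ⟨h2, h3⟩
    exact h3 (interior_subset h2)

end Emb

/-- `2` -/
noncomputable def two' : ℝˣ := Units.mk0 2 two_ne_zero

/-- the diagonal elements -/
noncomputable def dd {r : ℕ} (i : Fin r) : Fin r → ℝˣ := fun k => if (i : ℕ) = 0 ∨ k < i then two' else 1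

theorem tendsto_GL {r : ℕ} {i : Fin r} (hi : (i : ℕ) = 0) :
    Tendsto (fun m : ℕ => (dgU (dd i)) ^ m) atTop (cocompact (GL (Fin r) ℝ)) := by
  rw [(hasBasis_cocompact).tendsto_right_iff]
  intro C hC
  obtain ⟨M, hM⟩ := bdd_entries hC
  have h1 : Tendsto (fun m : ℕ => (2 : ℝ) ^ m) atTop atTop := tendsto_pow_atTop_atTop_of_one_lt (by norm_num)
  filter_upwards [h1.eventually (eventually_gt_atTop M)] with m hm hmem
  have h2 := hM _ hmem i i
  have e1 : ((dgU (dd i) ^ m : GL (Fin r) ℝ) : Matrix (Fin r) (Fin r) ℝ) i i = 2 ^ m := by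
    rw [← map_pow, dgU_coe, diagonal_apply_eq, Pi.pow_apply, dd, if_pos (Or.inl hi), Units.val_pow_eq_pow_val]
    rfl
  rw [e1, abs_of_pos (by positivity)] at h2
  linarith

/-- A group with a proper homomorphism from `GL(r, ℝ)` with kernel in `{1, -1}` has rank at least `r`. -/
theorem rankGE_of_GL {r : ℕ} {G : Type} [Group G] [TopologicalSpace G] [IsTopologicalGroup G]
    [LocallyCompactSpace G] [T2Space G] (f : GL (Fin r) ℝ →* G) (hf : Continuous f)
    (hp : Tendsto f (cocompact _) (cocompact G))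
    (hk : ∀ g, f g = 1 → (g : Matrix (Fin r) (Fin r) ℝ) = 1 ∨ (g : Matrix (Fin r) (Fin r) ℝ) = -1) :
    RankGE G r := by
  have key : ∀ i : Fin r, ∃ u w : G, (i : ℕ) ≠ 0 →
      (∀ j < i, f (dgU (dd j)) * u = u * f (dgU (dd j)) ∧ f (dgU (dd j)) * w = w * f (dgU (dd j))) ∧
      Tendsto (fun m : ℕ => (f (dgU (dd i)) ^ m)⁻¹ * u * f (dgU (dd i)) ^ m) atTop (𝓝 1) ∧
      Tendsto (fun m : ℕ => f (dgU (dd i)) ^ m * w * (f (dgU (dd i)) ^ m)⁻¹) atTop (𝓝 1) ∧
      DiscreteTopology (Subgroup.closure {u, w}) ∧ NonAm (Subgroup.closure {u, w}) := by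
    intro i
    by_cases hi : (i : ℕ) = 0
    · exact ⟨1, 1, fun h => absurd hi h⟩
    have hi1 : (i : ℕ) - 1 < r := by omega
    obtain ⟨ρ, _, _, e, he0, he1⟩ := exists_e (k := (⟨(i : ℕ) - 1, hi1⟩ : Fin r)) (l := i) (by
      intro h
      have := congrArg Fin.val h
      simp only at this
      omega)
    have hf1 : Tendsto f (𝓝 1) (𝓝 1) := by
      have := hf.tendsto 1
      rwa [map_one] at this
    have d0 : ∀ j : Fin r, j < i → dd j (e (Sum.inl 0)) = dd j (e (Sum.inl 1)) := by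
      intro j hj
      rw [he0, he1]
      unfold dd
      have hj' : (j : ℕ) < i := hj
      by_cases hj0 : (j : ℕ) = 0
      · rw [if_pos (Or.inl hj0), if_pos (Or.inl hj0)]
      · rw [if_neg, if_neg]
        · rintro (h | h)
          · exact hj0 h
          · have : (i : ℕ) < j := h
            omega
        · rintro (h | h)
          · exact hj0 h
          · have : (i : ℕ) - 1 < j := h
            omega
    have d1 : ∀ m : ℕ, ((dd i ^ m) (e (Sum.inl 0)) : ℝ) = 2 ^ m := by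
      intro m
      rw [he0, Pi.pow_apply, dd, if_pos, Units.val_pow_eq_pow_val]
      · rfl
      · right
        show (i : ℕ) - 1 < i
        omega
    have d2 : ∀ m : ℕ, ((dd i ^ m) (e (Sum.inl 1)) : ℝ) = 1 := by
      intro m
      rw [he1, Pi.pow_apply, dd, if_neg, one_pow]
      · rfl
      · rintro (h | h)
        · exact hi h
        · exact lt_irrefl _ h
    have hlim : Tendsto (fun m : ℕ => (4 : ℝ) / 2 ^ m) atTop (𝓝 0) := by
      have h1 : Tendsto (fun m : ℕ => (4 : ℝ) * (1 / 2) ^ m) atTop (𝓝 (4 * 0)) :=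
        (tendsto_pow_atTop_nhds_zero_of_lt_one (by norm_num) (by norm_num)).const_mul 4
      rw [mul_zero] at h1
      refine h1.congr fun m => ?_
      rw [one_div, inv_pow, div_eq_mul_inv]
    refine ⟨f (jb e (uE 4)), f (jb e (lE 4)), fun _ => ⟨fun j hj => ⟨?_, ?_⟩, ?_, ?_, ?_, ?_⟩⟩
    · rw [← map_mul, ← map_mul, dgU_uE e (t := 4) (s := 4) (by rw [d0 j hj, mul_comm])]
    · rw [← map_mul, ← map_mul, dgU_lE e (t := 4) (s := 4) (by rw [d0 j hj, mul_comm])]
    · refine (hf1.comp (tendsto_uE e hlim)).congr fun m => ?_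
      have h1 : dgU (dd i ^ m) * jb e (uE (4 / 2 ^ m)) = jb e (uE 4) * dgU (dd i ^ m) :=
        dgU_uE e (by rw [d1, d2]; field_simp)
      show f (jb e (uE (4 / 2 ^ m))) = _
      rw [← map_pow, ← map_pow, ← map_inv, ← map_mul, ← map_mul]
      congr 1
      rw [mul_assoc, ← h1, inv_mul_cancel_left]
    · refine (hf1.comp (tendsto_lE e hlim)).congr fun m => ?_
      have h1 : dgU (dd i ^ m) * jb e (lE 4) = jb e (lE (4 / 2 ^ m)) * dgU (dd i ^ m) :=
        dgU_lE e (by rw [d1, d2]; field_simp)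
      show f (jb e (lE (4 / 2 ^ m))) = _
      rw [← map_pow, ← map_pow, ← map_inv, ← map_mul, ← map_mul]
      congr 1
      rw [h1, mul_inv_cancel_right]
    · rw [← range_fz]
      exact discrete_range e f hp
    · rw [← range_fz]
      exact nonAm_range e f hk
  choose u w huw using key
  refine ⟨fun i => f (dgU (dd i)), u, w, fun i j => ?_, fun i hi => ?_, fun i hi => huw i hi⟩
  · show f (dgU (dd i)) * f (dgU (dd j)) = f (dgU (dd j)) * f (dgU (dd i))
    rw [← f.map_mul, ← f.map_mul, dgU_comm]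
  · refine (hp.comp (tendsto_GL hi)).congr fun m => ?_
    show f (dgU (dd i) ^ m) = _
    rw [map_pow]

end Pool.Agent.Helper96.FR
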